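import Pool.Agent.V8H38.NA.Defs

/-!
# Chains and orders of the variables
-/

set_option linter.unusedSectionVars false

namespace Pool.Agent.V8H38.NA

open Finset

variable {n : ℕ}

theorem change_trans {C : Net n} {x y z : Fin n → Bool} (h : C.Change x z) :
    C.Change x y ∨ C.Change y z := by
  obtain ⟨i, hi, k, hk, hki, h⟩ := h
  by_cases h1 : (0 < C.val x k ↔ 0 < C.val y k)
  · right
    exact ⟨i, hi, k, hk, hki, fun h2 => h (h1.trans h2)⟩
  · left
    exact ⟨i, hi, k, hk, hki, h1⟩

theorem not_change_self (C : Net n) (x : Fin n → Bool) : ¬ C.Change x x := by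
  rintro ⟨i, hi, k, hk, hki, h⟩
  exact h Iff.rfl

open Classical in
theorem changes_eq (C : Net n) (X : ℕ → Fin n → Bool) (T : ℕ) :
    C.changes X T = ∑ j ∈ Finset.range T, if C.Change (X j) (X (j + 1)) then 1 else 0 := by
  unfold Net.changes
  rw [Finset.card_filter]

theorem changes_succ (C : Net n) (X : ℕ → Fin n → Bool) (T : ℕ) :
    C.changes X T ≤ C.changes X (T + 1) := by
  classical
  rw [changes_eq, changes_eq, Finset.sum_range_succ]
  omega

theorem changes_mono (C : Net n) (X : ℕ → Fin n → Bool) {a b : ℕ} (h : a ≤ b) :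
    C.changes X a ≤ C.changes X b := by
  induction b, h using Nat.le_induction with
  | base => exact le_rfl
  | succ b _ ih => exact ih.trans (changes_succ C X b)

theorem changes_of_change (C : Net n) (X : ℕ → Fin n → Bool) {a b : ℕ} (h : a ≤ b)
    (hc : C.Change (X a) (X b)) : C.changes X a + 1 ≤ C.changes X b := by
  classical
  induction b, h using Nat.le_induction with
  | base => exact absurd hc (not_change_self C _)
  | succ b hb ih =>
    rcases change_trans (y := X b) hc with h1 | h1
    · exact (ih h1).trans (changes_succ C X b)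
    · have h2 := changes_mono C X hb
      have h3 : C.changes X (b + 1) = C.changes X b + 1 := by
        rw [changes_eq, changes_eq, Finset.sum_range_succ, if_pos h1]
      omega

/-- a set of positions which is closed downwards -/
theorem mem_iff_lt_card {S : Finset (Fin n)} (hS : ∀ i j : Fin n, i ≤ j → j ∈ S → i ∈ S)
    (i : Fin n) : i ∈ S ↔ (i : ℕ) < S.card := by
  constructor
  · intro hi
    have h1 : Finset.Iic i ⊆ S := fun j hj => hS j i (Finset.mem_Iic.1 hj) hi
    have h2 := Finset.card_le_card h1
    rw [Fin.card_Iic] at h2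
    omega
  · intro hi
    by_contra h
    have h1 : S ⊆ Finset.Iio i := by
      intro j hj
      rw [Finset.mem_Iio]
      by_contra h2
      exact h (hS i j (not_lt.1 h2) hj)
    have h2 := Finset.card_le_card h1
    rw [Fin.card_Iio] at h2
    omega

/-- **Every chain is refined by an order of the variables.** -/
theorem exists_order (E : Finset (Fin n)) (z : Fin n → Bool) (Y : ℕ → Fin n → Bool)
    (hY : ∀ j a, Y j a = true → Y (j + 1) a = true) (hE : ∀ j a, a ∉ E → Y j a = z a)
    (T : ℕ) : ∃ π : Equiv.Perm (Fin n), ∀ C : Net n, C.changes Y T ≤ C.activity E z π := by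
  classical
  have hmono : ∀ a i j, i ≤ j → Y i a = true → Y j a = true := by
    intro a i j hij
    induction j, hij using Nat.le_induction with
    | base => exact id
    | succ j _ ih => exact fun h => hY j a (ih h)
  let t : Fin n → ℕ := fun a => if h : ∃ j, Y j a = true then Nat.find h else T + 1
  have ht : ∀ a, ∀ j ≤ T, (Y j a = true ↔ t a ≤ j) := by
    intro a j hj
    simp only [t]
    split_ifs with h
    · constructor
      · intro h2
        exact Nat.find_min' h h2
      · intro h2
        exact hmono a _ _ h2 (Nat.find_spec h)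
    · constructor
      · intro h2
        exact absurd ⟨j, h2⟩ h
      · intro h2
        omega
  let τ : Equiv.Perm (Fin n) := Tuple.sort t
  have hτ : Monotone (t ∘ τ) := Tuple.monotone_sort t
  let c : ℕ → ℕ := fun j => (Finset.univ.filter fun i : Fin n => t (τ i) ≤ j).card
  have hc : ∀ j, ∀ i : Fin n, t (τ i) ≤ j ↔ (i : ℕ) < c j := by
    intro j i
    rw [← mem_iff_lt_card (S := Finset.univ.filter fun i : Fin n => t (τ i) ≤ j)]
    · simp
    · intro a b hab hb
      rw [Finset.mem_filter] at hb ⊢
      exact ⟨Finset.mem_univ _, (hτ hab).trans hb.2⟩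
  have hcmono : ∀ j, c j ≤ c (j + 1) := by
    intro j
    refine Finset.card_le_card fun i hi => ?_
    rw [Finset.mem_filter] at hi ⊢
    exact ⟨hi.1, by omega⟩
  have hcn : ∀ j, c j ≤ n := by
    intro j
    refine (Finset.card_le_univ _).trans ?_
    rw [Fintype.card_fin]
  refine ⟨τ.symm, fun C => ?_⟩
  have hYf : ∀ j ≤ T, Y j = switch E z τ.symm (c j) := by
    intro j hj
    funext a
    unfold switch
    split_ifs with ha
    · rw [Bool.eq_iff_iff, decide_eq_true_iff, ht a j hj]
      have := hc j (τ.symm a)
      rw [Equiv.apply_symm_apply] at this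
      exact this
    · exact hE j a ha
  have key : ∀ j ≤ T, C.changes Y j ≤ C.changes (switch E z τ.symm) (c j) := by
    intro j
    induction j with
    | zero => intro _; simp [Net.changes]
    | succ j ih =>
      intro hj
      have ih' := ih (by omega)
      rw [changes_eq, Finset.sum_range_succ, ← changes_eq]
      split_ifs with h
      · rw [hYf j (by omega), hYf (j + 1) hj] at h
        have := changes_of_change C (switch E z τ.symm) (hcmono j) h
        omega
      · have := changes_mono C (switch E z τ.symm) (hcmono j)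
        omega
  exact (key T le_rfl).trans (changes_mono C _ (hcn T))

/-- from random chains to random orders -/
theorem to_orders (E : Finset (Fin n)) (z : Fin n → Bool)
    {Ω : Type} [Fintype Ω] (P : Ω → ℝ) (X : Ω → ℕ → Fin n → Bool)
    (hP0 : ∀ ω, 0 ≤ P ω) (hP1 : ∑ ω, P ω = 1)
    (hX : ∀ ω j i, X ω j i = true → X ω (j + 1) i = true)
    (hE : ∀ ω j a, a ∉ E → X ω j a = z a) (T : ℕ) :
    ∃ P' : Equiv.Perm (Fin n) → ℝ, (∀ π, 0 ≤ P' π) ∧ ∑ π, P' π = 1 ∧
      ∀ C : Net n, ∑ ω, P ω * (C.changes (X ω) T : ℝ) ≤
        ∑ π, P' π * (C.activity E z π : ℝ) := by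
  classical
  choose π hπ using fun ω => exists_order E z (X ω) (hX ω) (hE ω) T
  have hsum : ∀ F : Equiv.Perm (Fin n) → ℝ,
      ∑ ρ, (∑ ω, if π ω = ρ then P ω else 0) * F ρ = ∑ ω, P ω * F (π ω) := by
    intro F
    simp only [Finset.sum_mul]
    rw [Finset.sum_comm]
    refine Finset.sum_congr rfl fun ω _ => ?_
    rw [Finset.sum_eq_single (π ω)]
    · rw [if_pos rfl]
    · intro ρ _ hρ
      rw [if_neg (fun h => hρ h.symm), zero_mul]
    · intro h
      exact absurd (Finset.mem_univ _) h
  refine ⟨fun ρ => ∑ ω, if π ω = ρ then P ω else 0, ?_, ?_, ?_⟩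
  · intro ρ
    refine Finset.sum_nonneg fun ω _ => ?_
    split_ifs
    · exact hP0 ω
    · exact le_rfl
  · have := hsum fun _ => 1
    simp only [mul_one] at this
    rw [this, hP1]
  · intro C
    rw [hsum fun ρ => (C.activity E z ρ : ℝ)]
    refine Finset.sum_le_sum fun ω _ => ?_
    refine mul_le_mul_of_nonneg_left ?_ (hP0 ω)
    exact_mod_cast hπ ω C

theorem switch_mono (E : Finset (Fin n)) (z : Fin n → Bool) (π : Equiv.Perm (Fin n)) (j : ℕ)
    (i : Fin n) (h : switch E z π j i = true) : switch E z π (j + 1) i = true := by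
  unfold switch at h ⊢
  split_ifs at h ⊢ with hi
  · rw [decide_eq_true_iff] at h ⊢
    omega
  · exact h

end Pool.Agent.V8H38.NA
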