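import Pool.Agent.V8H38.NA.Frz
import Pool.Agent.V8H38.NA.Order

/-!
# The number of changes of a layered circuit
-/

set_option linter.unusedSectionVars false

namespace Pool.Agent.V8H38.NA

open Finset

variable {n : ℕ} {C : Net n} {lev : ℕ → ℕ}

theorem val_eq (C : Net n) (x : Fin n → Bool) (i : ℕ) (h : i < C.nodes.length) :
    C.val x i = (C.nodes[i]).eval x fun k => if k < i then C.val x k else 0 := by
  unfold Net.val
  rw [vals_getD _ _ _ h]

theorem mval_eq (C : Net n) (x y : Fin n → Bool) (i : ℕ) (h : i < C.nodes.length) :
    mval C x y i = (frz (C.val x i) (C.nodes[i])).eval y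
      fun k => if k < i then mval C x y k else 0 := by
  have hi' : i < (frzL C x).length := by rw [frzL_length]; exact h
  have h1 : (frzL C x)[i] = frz (C.val x i) (C.nodes[i]) := by
    simp [frzL]
  unfold mval
  rw [vals_getD _ _ _ hi', h1]

/-- the state of layer `j` is the same at `x` and `y` -/
def Same (C : Net n) (lev : ℕ → ℕ) (x y : Fin n → Bool) (j : ℕ) : Prop :=
  ∀ k ∈ C.cut lev j, (0 < C.val x k ↔ 0 < C.val y k)

theorem mem_cut {j k : ℕ} : k ∈ C.cut lev j ↔
    ∃ (i : ℕ) (h : i < C.nodes.length), k < i ∧ lev i = j ∧ k ∈ (C.nodes[i]).reads := by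
  unfold Net.cut
  rw [Finset.mem_filter, Finset.mem_range]
  constructor
  · rintro ⟨-, h⟩; exact h
  · rintro ⟨i, h, h1, h2⟩
    exact ⟨h1.trans h, i, h, h1, h2⟩

theorem cut_lev (hL : C.Layered lev) {j k : ℕ} (hk : k ∈ C.cut lev j) : lev k < j := by
  obtain ⟨i, h, h1, h2, h3⟩ := mem_cut.1 hk
  rw [← h2]
  exact (hL i h).2 k h3 h1

/-- if the states of the layers below `j` are the same, the values of the nodes below layer `j`
are computed by the frozen circuit -/
theorem val_eq_mval (hL : C.Layered lev) {x y : Fin n → Bool} {j : ℕ}
    (hs : ∀ i < j, Same C lev x y i) (k : ℕ) (hk : lev k < j) : C.val y k = mval C x y k := by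
  induction k using Nat.strong_induction_on with
  | _ k ih =>
    by_cases h : k < C.nodes.length
    · have e1 := mval_eq C x y k h
      have e2 := val_eq C y k h
      have e3 := val_eq C x k h
      have hins := (hL k h).1
      cases hg : C.nodes[k] with
      | input i => rw [e1, e2, hg]; rfl
      | const c => rw [e1, e2, hg]; rfl
      | sup c l =>
        rw [e1, e2, hg]
        simp only [frz, Node.eval]
        rw [hg] at hins
        have e5 : ∀ l' : List ℕ, (∀ i ∈ l', i ∈ l) →
            l'.foldr (fun i r => (if i < k then C.val y i else 0) ⊔ r) c =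
            l'.foldr (fun i r => (if i < k then mval C x y i else 0) ⊔ r) c := by
          intro l'
          induction l' with
          | nil => intro _; rfl
          | cons i l' ihl =>
            intro hl'
            rw [List.foldr_cons, List.foldr_cons, ihl fun i' hi' => hl' i' (List.mem_cons_of_mem _ hi')]
            congr 1
            split_ifs with h3
            · have := hins i (hl' i List.mem_cons_self) h3
              exact ih i h3 (by omega)
            · rfl
        exact e5 l fun _ h => h
      | gate φ a b =>
        rw [e1, e2, hg]
        simp only [frz, Node.eval]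
        rw [hg] at hins
        have ha := hins a (by simp [Node.ins])
        have hb := hins b (by simp [Node.ins])
        congr 1
        · split_ifs with h3
          · have := ha h3
            exact ih a h3 (by omega)
          · rfl
        · split_ifs with h3
          · have := hb h3
            exact ih b h3 (by omega)
          · rfl
      | any l φ =>
        rw [e1, hg]
        simp only [frz, Node.eval]
        rw [e3, e2, hg]
        simp only [Node.eval]
        have e5 : (l.map fun i => decide (0 < if i < k then C.val x i else 0)) =
            l.map fun i => decide (0 < if i < k then C.val y i else 0) := by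
          refine List.map_congr_left fun i hi => ?_
          by_cases hik : i < k
          · simp only [if_pos hik, decide_eq_decide]
            exact hs _ hk i (mem_cut.2 ⟨k, h, hik, rfl, by rw [hg]; exact hi⟩)
          · simp only [if_neg hik]
        rw [e5]
    · unfold mval Net.val
      rw [vals_ge _ _ _ (show C.nodes.length ≤ k by omega),
        vals_ge _ _ _ (show (frzL C x).length ≤ k by rw [frzL_length]; omega)]

open Classical in
/-- number of ones in the state of layer `j` -/
noncomputable def ones (C : Net n) (lev : ℕ → ℕ) (j : ℕ) (x : Fin n → Bool) : ℕ :=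
  ((C.cut lev j).filter fun k => 0 < C.val x k).card

theorem ones_le (j : ℕ) (x : Fin n → Bool) : ones C lev j x ≤ (C.cut lev j).card :=
  Finset.card_filter_le _ _

/-- the layers below `j` as a number -/
noncomputable def clk (C : Net n) (lev : ℕ → ℕ) (x : Fin n → Bool) : ℕ → ℕ
  | 0 => 0
  | j + 1 => clk C lev x j * ((C.cut lev j).card + 1) + ones C lev j x

theorem clk_lt (x : Fin n → Bool) (j : ℕ) :
    clk C lev x j + 1 ≤ ∏ i ∈ Finset.range j, ((C.cut lev i).card + 1) := by
  induction j with
  | zero => simp [clk]
  | succ j ih =>
    rw [Finset.prod_range_succ, clk]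
    have := ones_le (C := C) (lev := lev) j x
    calc clk C lev x j * ((C.cut lev j).card + 1) + ones C lev j x + 1 ≤
        (clk C lev x j + 1) * ((C.cut lev j).card + 1) := by
          rw [add_mul]; omega
      _ ≤ _ := Nat.mul_le_mul_right _ ih

theorem clk_step (hC : C.Monotone) (hL : C.Layered lev) {x y : Fin n → Bool}
    (hxy : ∀ i, x i = true → y i = true)
    (j : ℕ) : ((∀ i < j, Same C lev x y i) ∧ clk C lev x j = clk C lev y j) ∨
      clk C lev x j < clk C lev y j := by
  classical
  induction j with
  | zero => left; exact ⟨by simp, rfl⟩
  | succ j ih =>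
    rcases ih with ⟨h1, h2⟩ | h1
    · have hup : ∀ k ∈ C.cut lev j, 0 < C.val x k → 0 < C.val y k := by
        intro k hk h
        rw [val_eq_mval hL h1 k (cut_lev hL hk)]
        have := mval_mono hC x hxy k
        rw [mval_self] at this
        linarith
      have hsub : ((C.cut lev j).filter fun k => 0 < C.val x k) ⊆
          ((C.cut lev j).filter fun k => 0 < C.val y k) := by
        intro k hk
        rw [Finset.mem_filter] at hk ⊢
        exact ⟨hk.1, hup k hk.1 hk.2⟩
      by_cases hs : Same C lev x y j
      · left
        refine ⟨?_, ?_⟩
        · intro i hi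
          rcases Nat.lt_succ_iff_lt_or_eq.1 hi with h | h
          · exact h1 i h
          · rw [h]; exact hs
        · rw [clk, clk, h2]
          congr 1
          unfold ones
          congr 1
          apply Finset.filter_congr
          intro k hk
          exact hs k hk
      · right
        rw [clk, clk, h2]
        have : ones C lev j x < ones C lev j y := by
          unfold ones
          refine Finset.card_lt_card ?_
          refine Finset.ssubset_iff_subset_ne.2 ⟨hsub, ?_⟩
          intro heq
          apply hs
          intro k hk
          have h4 : (k ∈ (C.cut lev j).filter fun k => 0 < C.val x k) ↔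
              (k ∈ (C.cut lev j).filter fun k => 0 < C.val y k) := by rw [heq]
          simpa only [Finset.mem_filter, hk, true_and] using h4
        omega
    · right
      rw [clk, clk]
      have h4 := ones_le (C := C) (lev := lev) j x
      calc clk C lev x j * ((C.cut lev j).card + 1) + ones C lev j x <
          (clk C lev x j + 1) * ((C.cut lev j).card + 1) := by rw [add_mul]; omega
        _ ≤ clk C lev y j * ((C.cut lev j).card + 1) := Nat.mul_le_mul_right _ h1
        _ ≤ _ := Nat.le_add_right _ _

/-- a bound for the layers -/
def top (C : Net n) (lev : ℕ → ℕ) : ℕ := (Finset.range (C.nodes.length + 1)).sup lev + 1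

theorem lev_lt_top {k : ℕ} (hk : k < C.nodes.length + 1) : lev k < top C lev := by
  unfold top
  have := Finset.le_sup (f := lev) (Finset.mem_range.2 hk)
  omega

theorem prod_top : ∏ i ∈ Finset.range (top C lev), ((C.cut lev i).card + 1) = C.combos lev := by
  classical
  unfold Net.combos
  symm
  refine Finset.prod_subset ?_ ?_
  · intro j hj
    obtain ⟨i, hi, rfl⟩ := Finset.mem_image.1 hj
    rw [Finset.mem_range] at hi ⊢
    exact lev_lt_top (by omega)
  · intro j _ hj
    have : C.cut lev j = ∅ := by
      rw [Finset.eq_empty_iff_forall_notMem]
      intro k hk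
      obtain ⟨i, h, h1, h2, h3⟩ := mem_cut.1 hk
      exact hj (Finset.mem_image.2 ⟨i, Finset.mem_range.2 h, h2⟩)
    rw [this]; simp

theorem clk_change (hC : C.Monotone) (hL : C.Layered lev) {x y : Fin n → Bool}
    (hxy : ∀ i, x i = true → y i = true) :
    clk C lev x (top C lev) ≤ clk C lev y (top C lev) ∧
      (C.Change x y → clk C lev x (top C lev) < clk C lev y (top C lev)) := by
  rcases clk_step hC hL hxy (top C lev) with ⟨h1, h2⟩ | h1
  · refine ⟨h2.le, ?_⟩
    rintro ⟨i, hi, k, hk, hki, h⟩
    exfalso
    apply h
    exact h1 (lev i) (lev_lt_top (by omega)) k (mem_cut.2 ⟨i, hi, hki, rfl, hk⟩)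
  · exact ⟨h1.le, fun _ => h1⟩

/-- **The number of changes of a layered circuit.** -/
theorem changes_combos (hC : C.Monotone) (hL : C.Layered lev) (X : ℕ → Fin n → Bool)
    (hX : ∀ j i, X j i = true → X (j + 1) i = true) (T : ℕ) :
    1 + C.changes X T ≤ C.combos lev := by
  classical
  have key : ∀ T, clk C lev (X 0) (top C lev) + C.changes X T ≤
      clk C lev (X T) (top C lev) := by
    intro T
    induction T with
    | zero => simp [Net.changes]
    | succ T ih =>
      rw [changes_eq, Finset.sum_range_succ, ← changes_eq]
      obtain ⟨h1, h2⟩ := clk_change hC hL (hX T)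
      split_ifs with h
      · have := h2 h
        omega
      · omega
  have h1 := key T
  have h2 := clk_lt (C := C) (lev := lev) (X T) (top C lev)
  rw [prod_top] at h2
  omega

/-- the activity of a layered circuit -/
theorem activity_combos (hC : C.Monotone) (hL : C.Layered lev) (E : Finset (Fin n))
    (z : Fin n → Bool) (π : Equiv.Perm (Fin n)) : 1 + C.activity E z π ≤ C.combos lev :=
  changes_combos hC hL _ (switch_mono E z π) n

/-- the number of arbitrary gates up to a node -/
def count (C : Net n) (i : ℕ) : ℕ := (C.nodes.take (i + 1)).countP Node.isAny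

theorem count_mono (C : Net n) {i j : ℕ} (h : i ≤ j) : count C i ≤ count C j := by
  unfold count
  exact List.Sublist.countP_le (List.take_sublist_take_left (by omega))

theorem count_lt (C : Net n) {i j : ℕ} (h : i < j) (hj : j < C.nodes.length)
    (ha : (C.nodes[j]).isAny = true) : count C i < count C j := by
  have h1 : count C i ≤ (C.nodes.take j).countP Node.isAny := by
    unfold count
    exact List.Sublist.countP_le (List.take_sublist_take_left (by omega))
  have h2 : count C j = (C.nodes.take j).countP Node.isAny + 1 := by
    unfold count
    rw [List.take_succ_eq_append_getElem hj, List.countP_append]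
    simp [ha]
  omega

theorem count_pos (C : Net n) {j : ℕ} (hj : j < C.nodes.length)
    (ha : (C.nodes[j]).isAny = true) : 0 < count C j := by
  unfold count
  rw [List.take_succ_eq_append_getElem hj, List.countP_append]
  simp [ha]

theorem count_le (C : Net n) (i : ℕ) : count C i ≤ C.nodes.countP Node.isAny :=
  List.Sublist.countP_le (List.take_sublist _ _)

theorem isAny_of_reads {g : Node n} {k : ℕ} (h : k ∈ g.reads) : g.isAny = true := by
  cases g <;> simp_all [Node.reads, Node.isAny]

theorem layered_count (C : Net n) : C.Layered (count C) := by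
  intro i hi
  refine ⟨fun k _ hk => count_mono C hk.le, fun k hk hki => ?_⟩
  exact count_lt C hki hi (isAny_of_reads hk)

/-- a circuit with `t` NOT gates -/
theorem combos_count (C : Net n)
    (hnot : ∀ g ∈ C.nodes, g.isAny = true → ∃ a, g = Node.not a) :
    C.combos (count C) ≤ 2 ^ (C.nodes.countP Node.isAny) := by
  classical
  set t := C.nodes.countP Node.isAny with ht
  have hcut : ∀ j, (C.cut (count C) j).card ≤ 1 := by
    intro j
    rw [Finset.card_le_one]
    intro a ha b hb
    obtain ⟨i, hi, h1, h2, h3⟩ := mem_cut.1 ha
    obtain ⟨i', hi', h1', h2', h3'⟩ := mem_cut.1 hb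
    have hii : i = i' := by
      rcases lt_trichotomy i i' with h | h | h
      · have := count_lt C h hi' (isAny_of_reads h3')
        omega
      · exact h
      · have := count_lt C h hi (isAny_of_reads h3)
        omega
    subst hii
    obtain ⟨c, hc⟩ := hnot _ (List.getElem_mem hi) (isAny_of_reads h3)
    rw [hc] at h3 h3'
    simp only [Node.not, Node.reads, List.mem_singleton] at h3 h3'
    rw [h3, h3']
  have hcut0 : C.cut (count C) 0 = ∅ := by
    rw [Finset.eq_empty_iff_forall_notMem]
    intro k hk
    obtain ⟨i, hi, h1, h2, h3⟩ := mem_cut.1 hk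
    have := count_pos C hi (isAny_of_reads h3)
    omega
  unfold Net.combos
  have hsub : (Finset.range C.nodes.length).image (count C) ⊆ Finset.range (t + 1) := by
    intro j hj
    obtain ⟨i, -, rfl⟩ := Finset.mem_image.1 hj
    rw [Finset.mem_range]
    have := count_le C i
    omega
  calc ∏ j ∈ (Finset.range C.nodes.length).image (count C), ((C.cut (count C) j).card + 1)
      ≤ ∏ j ∈ Finset.range (t + 1), ((C.cut (count C) j).card + 1) :=
        Finset.prod_le_prod_of_subset_of_one_le' hsub fun j _ _ => by omega
    _ = ∏ j ∈ Finset.range t, ((C.cut (count C) (j + 1)).card + 1) := by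
        rw [Finset.prod_range_succ', hcut0]
        simp
    _ ≤ ∏ _j ∈ Finset.range t, 2 := by
        refine Finset.prod_le_prod' fun j _ => ?_
        have := hcut (j + 1)
        omega
    _ = 2 ^ t := by simp

end Pool.Agent.V8H38.NA
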