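import Pool.Agent.V8H38.NA.Up

/-!
# The law is tight for circuits with real-valued monotone gates
-/

set_option linter.unusedSectionVars false

namespace Pool.Agent.V8H38.NA

open Finset

variable {n : ℕ}

/-- **Every function has a circuit of linear size with `T` NOT gates if `n + 1 ≤ 2 ^ T`.** -/
theorem exact_circuit (n T : ℕ) (hT : n + 1 ≤ 2 ^ T) (f : (Fin n → Bool) → Prop) :
    ∃ C : Net n, C.Monotone ∧ C.size ≤ 2 * n + 2 * T + 1 ∧
      C.nodes.countP Node.isAny ≤ T ∧
      (∀ g ∈ C.nodes, g.isAny = true → ∃ a, g = Node.not a) ∧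
      ∀ x, C.Accepts x ↔ f x := by
  classical
  obtain ⟨C, h1, h2, h3, h4, h5⟩ := window (fun x => decide (f x)) 0 T false
  refine ⟨C, h1, h2.le, by rw [h3]; simp, h4, fun x => ?_⟩
  rw [h5 x]
  have := wgt_le x
  have h6 : decide (0 + 2 ^ T ≤ wgt x) = false := by
    rw [decide_eq_false_iff_not]
    omega
  rw [h6]
  simp

/-- **Circuits with `t + 1` NOT gates that are right with probability `1 / 2 + c * 2 ^ t / n`.** -/
theorem tight (n t : ℕ) (f : (Fin n → Bool) → Prop) (D : (Fin n → Bool) → ℝ)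
    (hD0 : ∀ x, 0 ≤ D x) (hD1 : ∑ x, D x = 1) :
    ∃ C : Net n, C.Monotone ∧ C.size ≤ 2 * n + 2 * t + 1 ∧
      C.nodes.countP Node.isAny ≤ t + 1 ∧
      (∀ g ∈ C.nodes, g.isAny = true → ∃ a, g = Node.not a) ∧
      1 / 2 + 2 ^ t / (2 * (n + 2 ^ t)) ≤ C.agree D f := by
  classical
  set B : ℕ := 2 ^ t with hB
  have hB0 : 0 < B := by positivity
  set J : ℕ := n / B + 1 with hJ
  -- the mass of a window
  let mass : ℕ → ℝ := fun j => ∑ x, if wgt x / B = j then D x else 0
  have hmass : ∑ j ∈ Finset.range J, mass j = 1 := by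
    simp only [mass]
    rw [Finset.sum_comm, ← hD1]
    refine Finset.sum_congr rfl fun x _ => ?_
    rw [Finset.sum_ite_eq, if_pos]
    rw [Finset.mem_range, hJ]
    exact Nat.lt_succ_of_le (Nat.div_le_div_right (wgt_le x))
  obtain ⟨j, hj, hmj⟩ : ∃ j ∈ Finset.range J, 1 / (J:ℝ) ≤ mass j := by
    by_contra h
    push Not at h
    have hJ0 : (0:ℝ) < J := by rw [hJ]; positivity
    have : ∑ j ∈ Finset.range J, mass j < ∑ j ∈ Finset.range J, (1 / (J:ℝ)) :=
      Finset.sum_lt_sum_of_nonempty (by rw [hJ]; simp) h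
    rw [hmass, Finset.sum_const, Finset.card_range, nsmul_eq_mul,
      mul_one_div, div_self hJ0.ne'] at this
    exact lt_irrefl _ this
  obtain ⟨C, c1, c2, c3, c4, c5⟩ := window (fun x => decide (f x)) (j * B) t false
  obtain ⟨C', d1, d2, d3, d4, d5⟩ := window (fun x => !decide (f x)) (j * B) t true
  have hwin : ∀ x : Fin n → Bool, wgt x / B = j ↔ (j * B ≤ wgt x ∧ ¬ j * B + B ≤ wgt x) := by
    intro x
    rw [Nat.div_eq_iff hB0]
    constructor
    · rintro ⟨h1, h2⟩
      exact ⟨h1, by omega⟩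
    · rintro ⟨h1, h2⟩
      exact ⟨h1, by omega⟩
  have hsum : C.agree D f + C'.agree D f = 1 + mass j := by
    unfold Net.agree
    rw [← hD1]
    simp only [mass]
    rw [← Finset.sum_add_distrib, ← Finset.sum_add_distrib]
    refine Finset.sum_congr rfl fun x _ => ?_
    have e1 := c5 x
    have e2 := d5 x
    rw [← hB] at e1 e2
    by_cases hw : wgt x / B = j
    · obtain ⟨h1, h2⟩ := (hwin x).1 hw
      rw [if_pos hw]
      rw [decide_eq_false h2, decide_eq_true h1] at e1 e2
      have a1 : (C.Accepts x ↔ f x) := by rw [e1]; simp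
      have a2 : (C'.Accepts x ↔ f x) := by rw [e2]; simp
      rw [if_pos a1, if_pos a2]
    · rw [if_neg hw, add_zero]
      have hw' := mt (hwin x).2 hw
      by_cases h1 : j * B ≤ wgt x
      · have h2 : j * B + B ≤ wgt x := by
          by_contra h2
          exact hw' ⟨h1, h2⟩
        rw [decide_eq_true h2] at e1 e2
        by_cases hf : f x
        · have a1 : (C.Accepts x ↔ f x) := by rw [e1]; simp [hf]
          have a2 : ¬ (C'.Accepts x ↔ f x) := by rw [e2]; simp [hf]
          rw [if_pos a1, if_neg a2, add_zero]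
        · have a1 : ¬ (C.Accepts x ↔ f x) := by rw [e1]; simp [hf]
          have a2 : (C'.Accepts x ↔ f x) := by rw [e2]; simp [hf]
          rw [if_neg a1, if_pos a2, zero_add]
      · have h2 : ¬ j * B + B ≤ wgt x := by omega
        rw [decide_eq_false h2, decide_eq_false h1] at e1 e2
        by_cases hf : f x
        · have a1 : ¬ (C.Accepts x ↔ f x) := by rw [e1]; simp [hf]
          have a2 : (C'.Accepts x ↔ f x) := by rw [e2]; simp [hf]
          rw [if_neg a1, if_pos a2, zero_add]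
        · have a1 : (C.Accepts x ↔ f x) := by rw [e1]; simp [hf]
          have a2 : ¬ (C'.Accepts x ↔ f x) := by rw [e2]; simp [hf]
          rw [if_pos a1, if_neg a2, add_zero]
  have hBr : (0:ℝ) < B := by exact_mod_cast hB0
  have hJle : (J:ℝ) ≤ (n + B) / B := by
    rw [le_div_iff₀ hBr]
    have : J * B ≤ n + B := by
      rw [hJ, add_mul, one_mul]
      have := Nat.div_mul_le_self n B
      omega
    exact_mod_cast this
  have hJ0 : (0:ℝ) < J := by rw [hJ]; positivity
  have hbound : (2:ℝ) ^ t / (n + 2 ^ t) ≤ mass j := by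
    refine le_trans ?_ hmj
    have hB' : (2:ℝ) ^ t = B := by rw [hB]; push_cast; rfl
    rw [hB', div_le_div_iff₀ (by positivity) hJ0, one_mul]
    rw [le_div_iff₀ hBr] at hJle
    linarith
  have hhalf : (2:ℝ) ^ t / (2 * (n + 2 ^ t)) = (2 ^ t / (n + 2 ^ t)) / 2 := by
    rw [div_div, mul_comm (2:ℝ) (n + 2 ^ t)]
  by_cases hC : 1 / 2 + 2 ^ t / (2 * (n + 2 ^ t)) ≤ C.agree D f
  · exact ⟨C, c1, c2.le, by rw [c3]; simp, c4, hC⟩
  · refine ⟨C', d1, d2.le, by rw [d3]; simp, d4, ?_⟩
    push Not at hC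
    rw [hhalf] at hC ⊢
    linarith

end Pool.Agent.V8H38.NA
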