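import Pool.Agent.V8H38.NA.Main
import Pool.Agent.V8H38.NA.Layers
import Pool.Agent.V8H38.NA.Tight
import Pool.Agent.V8H38.NL.HalfClique

/-!
# The final theorems
-/

namespace Pool.Agent.V8H38.NA

open Finset
open Pool.Agent.V8H38.NL (padBits padBits_self adjBits halfClique_pad)

theorem halfClique_inNP : Pool.Agent.NPC.InNP HalfClique := Pool.Agent.V8H38.NL.halfClique_inNP

theorem halfClique_mono {x y : List Bool} (hxy : List.Forall₂ (· ≤ ·) x y)
    (hx : x ∈ HalfClique) : y ∈ HalfClique := Pool.Agent.V8H38.NL.halfClique_mono hxy hx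

theorem law_of (n : ℕ) {v : ℕ} (k lam μ : ℕ) (U : Finset (Fin v)) (hU : U.Nonempty)
    (f : (Fin n → Bool) → Prop)
    (hf : ∀ G : SimpleGraph (Fin v), f (padBits n G) ↔
        ∃ S : Finset (Fin v), k ≤ S.card ∧ G.IsClique (S : Set (Fin v)))
    (h1 : U.card ^ 2 < 2 ^ lam) (hlm : lam ≤ μ) (h2 : 270 * (lam ^ 3 * μ ^ 2) ≤ k)
    (h3 : 2 * k ≤ v) : Law n lam μ U f := by
  classical
  have hU1 : 1 ≤ U.card := Finset.card_pos.2 hU
  have hu0 : (0:ℝ) < (U.card : ℝ) ^ 2 := by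
    have : (0:ℝ) < U.card := by exact_mod_cast hU1
    positivity
  have hlam1 : 1 ≤ lam := by
    by_contra h0
    have : lam = 0 := by omega
    subst this
    have : 1 ≤ U.card ^ 2 := Nat.one_le_pow _ _ hU1
    simp only [pow_zero] at h1
    omega
  have hμ1 : 1 ≤ μ := hlam1.trans hlm
  by_cases hsmall : U.card ^ 2 ≤ 2 ^ 26 * (lam ^ 3 * μ ^ 4)
  · -- the bound is at least one
    have hD0 : ∀ x : Fin n → Bool, (0:ℝ) ≤ if x = (fun _ => false) then 1 else 0 := by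
      intro x
      split_ifs <;> norm_num
    have hD1 : ∑ x : Fin n → Bool, (if x = (fun _ => false) then (1:ℝ) else 0) = 1 := by simp
    refine ⟨fun x => if x = (fun _ => false) then 1 else 0, fun _ => false,
      fun π => if π = 1 then 1 else 0, hD0, hD1, ?_, fun π => by
        dsimp only
        split_ifs <;> norm_num, by simp, ?_⟩
    · intro x hx a _
      by_cases h : x = fun _ => false
      · rw [h]
      · simp only [if_neg h] at hx
        exact absurd rfl hx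
    · intro C _ _
      have h1 := agree_le_one hD0 hD1 C f
      have h2 : ((U.card : ℝ)) ^ 2 ≤ 2 ^ 26 * (lam ^ 3 * μ ^ 4) := by exact_mod_cast hsmall
      have h7 : (0:ℝ) ≤ ∑ π : Equiv.Perm (Fin n), (if π = 1 then (1:ℝ) else 0) *
          (C.activity (inside n U) (fun _ => false) π : ℝ) := Finset.sum_nonneg fun π _ => by
        split_ifs <;> positivity
      have h4 : (1:ℝ) / 2 ≤ 2 ^ 25 * (1 + ∑ π : Equiv.Perm (Fin n),
          (if π = 1 then (1:ℝ) else 0) * (C.activity (inside n U) (fun _ => false) π : ℝ)) *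
            (lam ^ 3 * μ ^ 4) / (U.card : ℝ) ^ 2 := by
        rw [div_le_div_iff₀ (by norm_num) hu0]
        have h5 : (0:ℝ) ≤ lam ^ 3 * μ ^ 4 := by positivity
        nlinarith
      linarith
  push Not at hsmall
  have hμ10 : 0 < 2 ^ 23 * (lam ^ 3 * μ ^ 4) := by positivity
  set r := U.card ^ 2 / (2 ^ 23 * (lam ^ 3 * μ ^ 4)) with hr
  have hrpos : 0 < r := Nat.div_pos (by omega) hμ10
  have h4 : 2 ^ 23 * r * (lam ^ 3 * μ ^ 4) ≤ U.card ^ 2 := by
    calc 2 ^ 23 * r * (lam ^ 3 * μ ^ 4) = r * (2 ^ 23 * (lam ^ 3 * μ ^ 4)) := by ring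
      _ ≤ U.card ^ 2 := Nat.div_mul_le_self _ _
  have hnr : U.card ^ 2 ≤ 2 ^ 24 * (lam ^ 3 * μ ^ 4) * r := by
    have h6 : U.card ^ 2 < 2 ^ 23 * (lam ^ 3 * μ ^ 4) * (r + 1) := Nat.lt_mul_div_succ _ hμ10
    have h7 : 2 ^ 23 * (lam ^ 3 * μ ^ 4) * (r + 1) ≤ 2 ^ 23 * (lam ^ 3 * μ ^ 4) * (2 * r) := by
      gcongr; omega
    have h8 : 2 ^ 23 * (lam ^ 3 * μ ^ 4) * (2 * r) = 2 ^ 24 * (lam ^ 3 * μ ^ 4) * r := by ring
    omega
  obtain ⟨D, z, P, d1, d2, d3, p1, p2, h⟩ :=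
    clique_avg n v k lam μ r U hU1 hrpos h1 hlm h2 h3 h4
  refine ⟨D, z, P, d1, d2, d3, p1, p2, fun C hC hs => ?_⟩
  refine (h f hf C hC hs).trans ?_
  set A : ℝ := ∑ π, P π * (C.activity (inside n U) z π : ℝ) with hA
  have hA0 : 0 ≤ A := Finset.sum_nonneg fun π _ => mul_nonneg (p1 π) (Nat.cast_nonneg _)
  have hr0 : (0:ℝ) < r := by exact_mod_cast hrpos
  have h6 : (U.card : ℝ) ^ 2 ≤ 2 ^ 24 * (lam ^ 3 * μ ^ 4) * r := by exact_mod_cast hnr
  have h7 : (2 * (1 + A) / r : ℝ) ≤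
      2 ^ 25 * (1 + A) * (lam ^ 3 * μ ^ 4) / (U.card : ℝ) ^ 2 := by
    rw [div_le_div_iff₀ hr0 hu0]
    calc (2 * (1 + A) : ℝ) * (U.card : ℝ) ^ 2 ≤
        2 * (1 + A) * (2 ^ 24 * (lam ^ 3 * μ ^ 4) * r) := by gcongr
      _ = 2 ^ 25 * (1 + A) * (lam ^ 3 * μ ^ 4) * r := by ring
  linarith

/-- **The law for the clique function.** -/
theorem clique_law (v k lam μ : ℕ) (U : Finset (Fin v)) (hU : U.Nonempty)
    (h1 : U.card ^ 2 < 2 ^ lam) (hlm : lam ≤ μ) (h2 : 270 * (lam ^ 3 * μ ^ 2) ≤ k)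
    (h3 : 2 * k ≤ v) : Law (v * v) lam μ U (Clique v k) := by
  classical
  refine law_of (v * v) k lam μ U hU _ (fun G => ?_) h1 hlm h2 h3
  rw [padBits_self]
  unfold Clique
  have hbit : ∀ a b : Fin v, adjBits G (finProdFinEquiv (a, b)) = true ↔ G.Adj a b := by
    intro a b
    unfold adjBits
    rw [Equiv.symm_apply_apply]
    exact @decide_eq_true_iff _ (Classical.propDecidable _)
  constructor
  · rintro ⟨S, hS, h⟩
    refine ⟨S, hS, fun a ha b hb hab => ?_⟩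
    rcases lt_or_gt_of_ne hab with h5 | h5
    · exact (hbit a b).1 (h a ha b hb h5)
    · exact ((hbit b a).1 (h b hb a ha h5)).symm
  · rintro ⟨S, hS, h⟩
    exact ⟨S, hS, fun a ha b hb hab => (hbit a b).2 (h ha hb hab.ne)⟩

/-- **The law for the half-clique language.** -/
theorem halfClique_law (n lam μ : ℕ) (U : Finset (Fin (Nat.sqrt n))) (hU : U.Nonempty)
    (h1 : U.card ^ 2 < 2 ^ lam) (hlm : lam ≤ μ) (h2 : 600 * (lam ^ 3 * μ ^ 2) ≤ Nat.sqrt n) :
    Law n lam μ U (fun x => List.ofFn x ∈ HalfClique) := by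
  refine law_of n (Nat.sqrt n / 2) lam μ U hU _ (fun G => halfClique_pad rfl G) h1 hlm ?_
    (Nat.mul_div_le _ 2)
  rw [Nat.le_div_iff_mul_le (by norm_num)]
  omega

/-- **Layered circuits and the half-clique language.** -/
theorem halfClique_combos (n μ : ℕ) (hn : 1 ≤ n) (hμ : Nat.log 2 n < μ) :
    ∃ D : (Fin n → Bool) → ℝ, (∀ x, 0 ≤ D x) ∧ ∑ x, D x = 1 ∧
      ∀ (C : Net n) (lev : ℕ → ℕ), C.Monotone → C.Layered lev → C.size ≤ 2 ^ μ →
        C.agree D (fun x => List.ofFn x ∈ HalfClique) ≤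
          1 / 2 + 2 ^ 27 * C.combos lev * ((Nat.log 2 n + 1) ^ 6 * μ ^ 4) / n := by
  classical
  have hn0 : (0:ℝ) < n := by exact_mod_cast hn
  set lam := Nat.log 2 n + 1 with hlam
  set v := Nat.sqrt n with hv
  have hv1 : 1 ≤ v := by rw [hv]; exact Nat.sqrt_pos.2 hn
  have hvn : v * v ≤ n := Nat.sqrt_le n
  have hvn2 : n < (v + 1) * (v + 1) := Nat.lt_succ_sqrt n
  have hn2 : n < 2 ^ lam := Nat.lt_pow_of_log_lt (by norm_num) (by omega)
  have h5 : n < 4 * v ^ 2 := by nlinarith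
  have hμ1 : 1 ≤ μ := by omega
  have hlam1 : 1 ≤ lam := by omega
  have hcomb : ∀ (C : Net n) (lev : ℕ → ℕ), C.Monotone → C.Layered lev →
      (1:ℝ) ≤ C.combos lev := by
    intro C lev hC hL
    have := activity_combos hC hL ∅ (fun _ => false) 1
    have : 1 ≤ C.combos lev := by omega
    exact_mod_cast this
  by_cases h2 : 600 * (lam ^ 3 * μ ^ 2) ≤ v
  · have hU : (Finset.univ : Finset (Fin v)).Nonempty := by
      rw [← Finset.card_pos, Finset.card_univ, Fintype.card_fin]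
      exact hv1
    obtain ⟨D, z, P, d1, d2, d3, p1, p2, h⟩ := halfClique_law n lam μ Finset.univ hU (by
      rw [Finset.card_univ, Fintype.card_fin]
      calc v ^ 2 = v * v := by ring
        _ ≤ n := hvn
        _ < 2 ^ lam := hn2) (by omega) h2
    refine ⟨D, d1, d2, fun C lev hC hL hs => (h C hC hs).trans ?_⟩
    have hA : 1 + ∑ π, P π * (C.activity (inside n (Finset.univ : Finset (Fin v))) z π : ℝ) ≤ C.combos lev := by
      have e1 : ∑ π, P π * (C.activity (inside n (Finset.univ : Finset (Fin v))) z π : ℝ) ≤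
          ∑ π, P π * ((C.combos lev : ℝ) - 1) := by
        refine Finset.sum_le_sum fun π _ => mul_le_mul_of_nonneg_left ?_ (p1 π)
        have := activity_combos hC hL (inside n (Finset.univ : Finset (Fin v))) z π
        have h6 : ((1 + C.activity (inside n (Finset.univ : Finset (Fin v))) z π : ℕ) : ℝ) ≤ C.combos lev := by
          exact_mod_cast this
        push_cast at h6
        linarith
      rw [← Finset.sum_mul, p2, one_mul] at e1
      linarith
    have hlm0 : (0:ℝ) ≤ lam ^ 3 * μ ^ 4 := by positivity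
    have hlm1 : ((lam : ℝ)) ^ 3 * μ ^ 4 ≤ lam ^ 6 * μ ^ 4 := by
      have : lam ^ 3 * μ ^ 4 ≤ lam ^ 6 * μ ^ 4 :=
        Nat.mul_le_mul_right _ (Nat.pow_le_pow_right hlam1 (by norm_num))
      exact_mod_cast this
    have hcard : ((Finset.univ : Finset (Fin v)).card : ℝ) = v := by
      rw [Finset.card_univ, Fintype.card_fin]
    have hv0 : (0:ℝ) < (v:ℝ) ^ 2 := by
      have : (0:ℝ) < v := by exact_mod_cast hv1
      positivity
    have h5' : (n:ℝ) ≤ 4 * v ^ 2 := by exact_mod_cast h5.le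
    have hc1 := hcomb C lev hC hL
    rw [hcard]
    have h7 : 2 ^ 25 * (1 + ∑ π, P π * (C.activity (inside n (Finset.univ : Finset (Fin v))) z π : ℝ)) *
        (lam ^ 3 * μ ^ 4) / (v:ℝ) ^ 2 ≤ 2 ^ 27 * C.combos lev * (lam ^ 6 * μ ^ 4) / n := by
      rw [div_le_div_iff₀ hv0 hn0]
      calc 2 ^ 25 * (1 + ∑ π, P π * (C.activity (inside n (Finset.univ : Finset (Fin v))) z π : ℝ)) *
          (lam ^ 3 * μ ^ 4) * (n:ℝ) ≤
            2 ^ 25 * (C.combos lev : ℝ) * (lam ^ 6 * μ ^ 4) * (4 * v ^ 2) := by gcongr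
        _ = 2 ^ 27 * C.combos lev * (lam ^ 6 * μ ^ 4) * (v:ℝ) ^ 2 := by ring
    have h8 : ((Nat.log 2 n + 1 : ℕ) : ℝ) = lam := by rw [hlam]
    have h9 : ((Nat.log 2 n : ℝ) + 1) = lam := by rw [← h8]; push_cast; ring
    rw [h9]
    linarith
  · -- small inputs: the bound is at least one
    push Not at h2
    have hsmall : n ≤ 2 ^ 21 * (lam ^ 6 * μ ^ 4) := by
      have h6 : v ^ 2 ≤ (600 * (lam ^ 3 * μ ^ 2)) ^ 2 := Nat.pow_le_pow_left h2.le 2
      have h7 : (600 * (lam ^ 3 * μ ^ 2)) ^ 2 = 360000 * (lam ^ 6 * μ ^ 4) := by ring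
      omega
    have hD0 : ∀ x : Fin n → Bool, (0:ℝ) ≤ if x = (fun _ => false) then 1 else 0 := by
      intro x
      split_ifs <;> norm_num
    have hD1 : ∑ x : Fin n → Bool, (if x = (fun _ => false) then (1:ℝ) else 0) = 1 := by simp
    refine ⟨fun x => if x = (fun _ => false) then 1 else 0, hD0, hD1, ?_⟩
    intro C lev hC hL _
    have h1 := agree_le_one hD0 hD1 C (fun x => List.ofFn x ∈ HalfClique)
    have h3 := hcomb C lev hC hL
    have h6 : (n:ℝ) ≤ 2 ^ 21 * (lam ^ 6 * μ ^ 4) := by exact_mod_cast hsmall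
    have h8 : ((Nat.log 2 n : ℝ) + 1) = lam := by rw [hlam]; push_cast; ring
    rw [h8]
    have h4 : (1:ℝ) / 2 ≤ 2 ^ 27 * C.combos lev * (lam ^ 6 * μ ^ 4) / n := by
      rw [div_le_div_iff₀ (by norm_num) hn0]
      have h5 : (0:ℝ) ≤ lam ^ 6 * μ ^ 4 := by positivity
      nlinarith
    linarith

/-- **Layered circuits, circuits with `t` NOT gates, and the half-clique language.** -/
theorem halfClique_nots (n μ : ℕ) (hn : 1 ≤ n) (hμ : Nat.log 2 n < μ) :
    ∃ D : (Fin n → Bool) → ℝ, (∀ x, 0 ≤ D x) ∧ ∑ x, D x = 1 ∧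
      ∀ C : Net n, C.Monotone → C.size ≤ 2 ^ μ →
        (∀ lev : ℕ → ℕ, C.Layered lev → C.agree D (fun x => List.ofFn x ∈ HalfClique) ≤
          1 / 2 + 2 ^ 27 * C.combos lev * ((Nat.log 2 n + 1) ^ 6 * μ ^ 4) / n) ∧
        ∀ t : ℕ, C.nodes.countP Node.isAny ≤ t →
          (∀ g ∈ C.nodes, g.isAny = true → ∃ a, g = Node.not a) →
          C.agree D (fun x => List.ofFn x ∈ HalfClique) ≤
            1 / 2 + 2 ^ 27 * 2 ^ t * ((Nat.log 2 n + 1) ^ 6 * μ ^ 4) / n := by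
  obtain ⟨D, d1, d2, h⟩ := halfClique_combos n μ hn hμ
  refine ⟨D, d1, d2, fun C hC hs => ⟨fun lev hL => h C lev hC hL hs, fun t ht hnot =>
    (h C _ hC (layered_count C) hs).trans ?_⟩⟩
  have h1 := combos_count C hnot
  have h2 : (C.combos (count C) : ℝ) ≤ 2 ^ t := by
    have : C.combos (count C) ≤ 2 ^ t := h1.trans (Nat.pow_le_pow_right (by norm_num) ht)
    exact_mod_cast this
  gcongr

end Pool.Agent.V8H38.NA
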