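import Pool.Agent.V8H38.NL.Prob

/-!
# The random chain of unions of independent random sets
-/

set_option linter.unusedSectionVars false

namespace Pool.Agent.V8H38.NA

open Finset
open Pool.Agent.V8H38.NL (NN NN_mono NN_const NN_add NN_smul NN_zero NN_succ N N_const wt
  wt_nonneg sum_wt)

variable {V : Type} [Fintype V] [DecidableEq V]

/-- the union of the first `i` sets -/
def upto {K : ℕ} (ω : Fin K → Finset V) (i : ℕ) : Finset V :=
  Finset.univ.filter fun v => ∃ j : Fin K, (j : ℕ) < i ∧ v ∈ ω j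

theorem mem_upto {K : ℕ} (ω : Fin K → Finset V) (i : ℕ) (v : V) :
    v ∈ upto ω i ↔ ∃ j : Fin K, (j : ℕ) < i ∧ v ∈ ω j := by
  simp only [upto, Finset.mem_filter, Finset.mem_univ, true_and]

theorem upto_zero {K : ℕ} (ω : Fin K → Finset V) : upto ω 0 = ∅ := by
  ext v
  rw [mem_upto]
  simp

theorem upto_mono {K : ℕ} (ω : Fin K → Finset V) {i j : ℕ} (h : i ≤ j) :
    upto ω i ⊆ upto ω j := by
  intro v hv
  rw [mem_upto] at hv ⊢
  obtain ⟨a, h1, h2⟩ := hv
  exact ⟨a, by omega, h2⟩

theorem upto_cons {K : ℕ} (Z : Finset V) (ω : Fin K → Finset V) (i : ℕ) :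
    upto (Fin.cons Z ω : Fin (K + 1) → Finset V) (i + 1) = Z ∪ upto ω i := by
  ext v
  rw [mem_upto, Fin.exists_fin_succ, Finset.mem_union, mem_upto]
  simp only [Fin.val_zero, Fin.cons_zero, Fin.val_succ, Fin.cons_succ]
  constructor
  · rintro (⟨_, h⟩ | ⟨j, h1, h2⟩)
    · exact Or.inl h
    · exact Or.inr ⟨j, by omega, h2⟩
  · rintro (h | ⟨j, h1, h2⟩)
    · exact Or.inl ⟨by omega, h⟩
    · exact Or.inr ⟨j, by omega, h2⟩

/-- the weight of a sequence of sets -/
noncomputable def wts (p : ℝ) {K : ℕ} (ω : Fin K → Finset V) : ℝ := ∏ j, wt p (ω j)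

theorem wts_nonneg {p : ℝ} (h0 : 0 ≤ p) (h1 : p ≤ 1) {K : ℕ} (ω : Fin K → Finset V) :
    0 ≤ wts p ω := Finset.prod_nonneg fun _ _ => wt_nonneg h0 h1 _

theorem wts_cons (p : ℝ) {K : ℕ} (Z : Finset V) (ω : Fin K → Finset V) :
    wts p (Fin.cons Z ω : Fin (K + 1) → Finset V) = wt p Z * wts p ω := by
  unfold wts
  rw [Fin.prod_univ_succ]
  simp

theorem sum_cons {K : ℕ} (F : (Fin (K + 1) → Finset V) → ℝ) :
    ∑ ω, F ω = ∑ Z : Finset V, ∑ ω : Fin K → Finset V, F (Fin.cons Z ω) := by
  rw [← Fintype.sum_prod_type']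
  exact (Fintype.sum_equiv (Fin.consEquiv (fun _ : Fin (K + 1) => Finset V)) _ _
    (fun z => rfl)).symm

/-- **The walk.** -/
theorem walk (p : ℝ) : ∀ (K a b : ℕ), a + b ≤ K → ∀ (g : Finset V → Finset V → ℝ) (x : Finset V),
    ∑ ω : Fin K → Finset V, wts p ω * g (x ∪ upto ω a) (x ∪ upto ω (a + b)) =
      NN p a (fun x' => NN p b (g x') x') x := by
  intro K
  induction K with
  | zero =>
    intro a b hab g x
    have ha : a = 0 := by omega
    have hb : b = 0 := by omega
    subst ha; subst hb
    rw [Fintype.sum_unique]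
    simp [NN_zero, upto_zero, wts]
  | succ K ih =>
    intro a b hab g x
    rw [sum_cons]
    cases a with
    | zero =>
      cases b with
      | zero =>
        have e1 : ∀ Z : Finset V, ∑ ω : Fin K → Finset V,
            wts p (Fin.cons Z ω : Fin (K + 1) → Finset V) *
              g (x ∪ upto (Fin.cons Z ω : Fin (K + 1) → Finset V) 0)
                (x ∪ upto (Fin.cons Z ω : Fin (K + 1) → Finset V) (0 + 0)) =
            wt p Z * g x x := by
          intro Z
          have h2 := ih 0 0 (by omega) (fun _ _ => g x x) x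
          simp only [NN_zero] at h2
          rw [← h2, Finset.mul_sum]
          refine Finset.sum_congr rfl fun ω _ => ?_
          rw [wts_cons, upto_zero, Finset.union_empty]
          ring
        rw [Finset.sum_congr rfl fun Z _ => e1 Z, ← Finset.sum_mul, sum_wt, one_mul]
        simp [NN_zero]
      | succ b =>
        have e1 : ∀ Z : Finset V, ∑ ω : Fin K → Finset V,
            wts p (Fin.cons Z ω : Fin (K + 1) → Finset V) *
              g (x ∪ upto (Fin.cons Z ω : Fin (K + 1) → Finset V) 0)
                (x ∪ upto (Fin.cons Z ω : Fin (K + 1) → Finset V) (0 + (b + 1))) =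
            wt p Z * NN p b (g x) (x ∪ Z) := by
          intro Z
          have h2 := ih 0 b (by omega) (fun _ y => g x y) (x ∪ Z)
          simp only [NN_zero] at h2
          rw [← h2, Finset.mul_sum]
          refine Finset.sum_congr rfl fun ω _ => ?_
          rw [wts_cons, upto_zero, Finset.union_empty, ← Nat.add_assoc, upto_cons,
            Finset.union_assoc]
          ring
        rw [Finset.sum_congr rfl fun Z _ => e1 Z, NN_zero, NN_succ]
        rfl
    | succ a =>
      have e1 : ∀ Z : Finset V, ∑ ω : Fin K → Finset V,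
          wts p (Fin.cons Z ω : Fin (K + 1) → Finset V) *
            g (x ∪ upto (Fin.cons Z ω : Fin (K + 1) → Finset V) (a + 1))
              (x ∪ upto (Fin.cons Z ω : Fin (K + 1) → Finset V) (a + 1 + b)) =
          wt p Z * NN p a (fun x' => NN p b (g x') x') (x ∪ Z) := by
        intro Z
        rw [← ih a b (by omega) g (x ∪ Z), Finset.mul_sum]
        refine Finset.sum_congr rfl fun ω _ => ?_
        rw [wts_cons, show a + 1 + b = a + b + 1 by ring, upto_cons, upto_cons,
          Finset.union_assoc, Finset.union_assoc]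
        ring
      rw [Finset.sum_congr rfl fun Z _ => e1 Z]
      rw [NN_succ]
      rfl

theorem sum_wts (p : ℝ) (K : ℕ) : ∑ ω : Fin K → Finset V, wts p ω = 1 := by
  have := walk p K 0 0 (by omega) (fun _ _ => 1) (∅ : Finset V)
  simpa [NN_zero] using this

end Pool.Agent.V8H38.NA
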