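import Mathlib

/-!
# Circuits with real-valued monotone gates and arbitrary Boolean gates
-/

namespace Pool.Agent.V8H38.NA

/-- A node of a circuit with `n` inputs: an input variable (with the values zero and one), a real
constant, a maximum gate (the maximum of a constant and of the values of any number of nodes), a
gate which applies a function of two real numbers to two nodes, or a gate which applies an arbitrary
Boolean function to the bits of any number of nodes; the bit of a node tells whether its value is
positive. The natural numbers are the numbers (counted from zero) of the nodes read by the gate. -/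
inductive Node (n : ℕ) : Type
  | input (i : Fin n)
  | const (c : ℝ)
  | sup (c : ℝ) (l : List ℕ)
  | gate (φ : ℝ → ℝ → ℝ) (a b : ℕ)
  | any (l : List ℕ) (φ : List Bool → Bool)

namespace Node

variable {n : ℕ}

/-- The value of a node, given the input `x` and the values `v` of the nodes it reads. -/
noncomputable def eval (x : Fin n → Bool) (v : ℕ → ℝ) : Node n → ℝ
  | input i => if x i = true then 1 else 0
  | const c => c
  | sup c l => l.foldr (fun k r => v k ⊔ r) c
  | gate φ a b => φ (v a) (v b)
  | any l φ => if φ (l.map fun k => decide (0 < v k)) = true then 1 else 0

/-- the binary gates with real values -/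
def isGate : Node n → Bool
  | gate _ _ _ => true
  | _ => false

/-- the nodes read by an arbitrary Boolean gate -/
def reads : Node n → List ℕ
  | any l _ => l
  | _ => []

/-- the function of a binary gate is non-decreasing in both arguments -/
def Mono : Node n → Prop
  | gate φ _ _ => ∀ s s' t t' : ℝ, s ≤ s' → t ≤ t' → φ s t ≤ φ s' t'
  | _ => True

end Node

/-- A circuit with `n` inputs: the list of its nodes, in an order in which every gate comes after
the nodes it reads, and the number of the output node. -/
structure Net (n : ℕ) : Type where
  /-- the nodes -/
  nodes : List (Node n)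
  /-- the number of the output node -/
  out : ℕ

/-- The list of the values of all nodes of a list of nodes (a reference to a node that is not
earlier reads zero). -/
noncomputable def vals {n : ℕ} (x : Fin n → Bool) (l : List (Node n)) : List ℝ :=
  l.foldl (fun v g => v ++ [g.eval x fun k => v.getD k 0]) []

namespace Net

variable {n : ℕ}

/-- The value of the node number `k`. -/
noncomputable def val (C : Net n) (x : Fin n → Bool) (k : ℕ) : ℝ := (vals x C.nodes).getD k 0

/-- The circuit accepts the input: the value of the output node is positive. -/
def Accepts (C : Net n) (x : Fin n → Bool) : Prop := 0 < C.val x C.out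

/-- The size: the number of binary gates. -/
def size (C : Net n) : ℕ := C.nodes.countP Node.isGate

/-- All binary gates are non-decreasing. -/
def Monotone (C : Net n) : Prop := ∀ g ∈ C.nodes, g.Mono

/-- The bit of a node which is read by a (later) arbitrary Boolean gate is not the same for the
inputs `x` and `y`. -/
def Change (C : Net n) (x y : Fin n → Bool) : Prop :=
  ∃ (i : ℕ) (h : i < C.nodes.length), ∃ k ∈ (C.nodes[i]).reads,
    k < i ∧ ¬ (0 < C.val x k ↔ 0 < C.val y k)

open Classical in
/-- The number of steps of the sequence `X 0, ..., X T` at which some bit read by an arbitrary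
Boolean gate changes. -/
noncomputable def changes (C : Net n) (X : ℕ → Fin n → Bool) (T : ℕ) : ℕ :=
  ((Finset.range T).filter fun j => C.Change (X j) (X (j + 1))).card

/-- The input in which the variables in `E` at the positions less than `i` of the order `π` are
switched on and the other variables in `E` are switched off; the variables outside `E` have the
values `z`. Here `π a` is the position of the variable `a`. -/
def _root_.Pool.Agent.V8H38.NA.switch (E : Finset (Fin n)) (z : Fin n → Bool)
    (π : Equiv.Perm (Fin n)) (i : ℕ) (a : Fin n) : Bool :=
  if a ∈ E then decide ((π a : ℕ) < i) else z a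

/-- The activity of the circuit on the set `E` of variables, with respect to the order `π` and the
values `z` of the other variables: the number of steps at which some bit read by an arbitrary
Boolean gate changes when the variables in `E` are switched on one after the other. -/
noncomputable def activity (C : Net n) (E : Finset (Fin n)) (z : Fin n → Bool)
    (π : Equiv.Perm (Fin n)) : ℕ := C.changes (switch E z π) n

/-- The set of the bits number `a * v + b` with `a` and `b` in `U`, for a set `U` of vertices out
of `0, ..., v - 1`: the entries of the adjacency matrix for pairs inside `U`. -/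
def _root_.Pool.Agent.V8H38.NA.inside (n : ℕ) {v : ℕ} (U : Finset (Fin v)) : Finset (Fin n) :=
  Finset.univ.filter fun i => ∃ a ∈ U, ∃ b ∈ U, (i : ℕ) = (a : ℕ) * v + (b : ℕ)

open Classical in
/-- The probability, under the distribution with the weights `D`, that the circuit is right about
the predicate `f`. -/
noncomputable def agree (C : Net n) (D : (Fin n → Bool) → ℝ) (f : (Fin n → Bool) → Prop) : ℝ :=
  ∑ x, if (C.Accepts x ↔ f x) then D x else 0

end Net

/-- The clique function. The input `x` is the adjacency matrix of a graph with the vertices
`0, ..., v - 1`: for `a < b < v`, the bit number `a * v + b` says whether `a` and `b` are adjacent.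
It is accepted if some `k` vertices are pairwise adjacent. -/
def Clique (v k : ℕ) (x : Fin (v * v) → Bool) : Prop :=
  ∃ S : Finset (Fin v), k ≤ S.card ∧
    ∀ a ∈ S, ∀ b ∈ S, a < b → x (finProdFinEquiv (a, b)) = true

/-- The half-clique language. An input `x` is read as a graph with the vertices `0, ..., v - 1`,
where `v` is the integer part of the square root of the length of `x`: for `a < b < v`, the bit
number `a * v + b` of `x` (counted from zero) says whether `a` and `b` are adjacent. The input is
in the language if some `v / 2` (rounded down) vertices are pairwise adjacent. -/
def HalfClique : Set (List Bool) :=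
  {x | ∃ S : Finset ℕ, (∀ a ∈ S, a < Nat.sqrt x.length) ∧ Nat.sqrt x.length / 2 ≤ S.card ∧
    ∀ a ∈ S, ∀ b ∈ S, a < b → x.getD (a * Nat.sqrt x.length + b) false = true}

/-- **The law** for the predicate `f` of `n` bits and the variables inside `U`. There are a
distribution `D` of inputs which have the fixed values `z` outside of the bits inside `U`, and a
distribution `P` of orders of the variables, such that every circuit of size at most `2 ^ μ` is
right with probability at most `1 / 2 + 2 ^ 25 * (1 + A) * lam ^ 3 * μ ^ 4 / |U| ^ 2`, where `A` is
the expected activity of the circuit inside `U` for a random order. -/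
def Law (n : ℕ) {v : ℕ} (lam μ : ℕ) (U : Finset (Fin v)) (f : (Fin n → Bool) → Prop) : Prop :=
  ∃ (D : (Fin n → Bool) → ℝ) (z : Fin n → Bool) (P : Equiv.Perm (Fin n) → ℝ),
    (∀ x, 0 ≤ D x) ∧ ∑ x, D x = 1 ∧ (∀ x, D x ≠ 0 → ∀ a, a ∉ inside n U → x a = z a) ∧
    (∀ π, 0 ≤ P π) ∧ ∑ π, P π = 1 ∧
    ∀ C : Net n, C.Monotone → C.size ≤ 2 ^ μ →
      C.agree D f ≤ 1 / 2 +
        2 ^ 25 * (1 + ∑ π, P π * (C.activity (inside n U) z π : ℝ)) * (lam ^ 3 * μ ^ 4) /
          U.card ^ 2

end Pool.Agent.V8H38.NA
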