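import Pool.Agent.V8H38.NA.Scale

/-!
# The frozen circuit: arbitrary gates are replaced by their values at an input
-/

set_option linter.unusedSectionVars false

namespace Pool.Agent.V8H38.NA

variable {n : ℕ}

theorem vals_getD_append (x : Fin n → Bool) (l l' : List (Node n)) (k : ℕ) (hk : k < l.length) :
    (vals x (l ++ l')).getD k 0 = (vals x l).getD k 0 := by
  induction l' using List.reverseRecOn with
  | nil => simp
  | append_singleton l' g ih =>
    rw [← List.append_assoc, vals_append, List.getD_append, ih]
    rw [vals_length, List.length_append]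
    omega

theorem vals_getD (x : Fin n → Bool) (l : List (Node n)) (i : ℕ) (h : i < l.length) :
    (vals x l).getD i 0 =
      (l[i]).eval x fun k => if k < i then (vals x l).getD k 0 else 0 := by
  have h1 : l = (l.take i ++ [l[i]]) ++ l.drop (i + 1) := by
    rw [List.take_append_getElem, List.take_append_drop]
  have h2 : (l.take i).length = i := by
    rw [List.length_take]; omega
  have h3 : ∀ k, (vals x (l.take i)).getD k 0 = if k < i then (vals x l).getD k 0 else 0 := by
    intro k
    split_ifs with hk
    · conv_rhs => rw [← List.take_append_drop i l]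
      rw [vals_getD_append _ _ _ _ (by omega)]
    · rw [List.getD_eq_default]
      rw [vals_length]
      omega
  have h4 : (vals x l).getD i 0 = (vals x (l.take i ++ [l[i]])).getD i 0 := by
    conv_lhs => rw [h1]
    rw [vals_getD_append]
    rw [List.length_append, h2]
    simp
  rw [h4, vals_append, List.getD_append_right _ _ _ _ (by rw [vals_length]; omega), vals_length,
    h2]
  simp only [Nat.sub_self, List.getD_cons_zero]
  congr 1
  funext k
  exact h3 k

theorem vals_ge (x : Fin n → Bool) (l : List (Node n)) (i : ℕ) (h : l.length ≤ i) :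
    (vals x l).getD i 0 = 0 := by
  rw [List.getD_eq_default]
  rw [vals_length]
  exact h

/-- the node of the frozen circuit -/
def frz (c : ℝ) : Node n → Node n
  | Node.any _ _ => Node.const c
  | g => g

theorem frz_isAny (c : ℝ) (g : Node n) : (frz c g).isAny = false := by
  cases g <;> rfl

theorem frz_isGate (c : ℝ) (g : Node n) : (frz c g).isGate = g.isGate := by
  cases g <;> rfl

theorem frz_mono (c : ℝ) (g : Node n) (h : g.Mono) : (frz c g).Mono := by
  cases g <;> exact h

/-- the nodes of the frozen circuit -/
noncomputable def frzL (C : Net n) (x : Fin n → Bool) : List (Node n) :=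
  C.nodes.mapIdx fun i g => frz (C.val x i) g

theorem frzL_length (C : Net n) (x : Fin n → Bool) : (frzL C x).length = C.nodes.length := by
  simp [frzL]

theorem frzL_any (C : Net n) (x : Fin n → Bool) : ∀ g ∈ frzL C x, g.isAny = false := by
  intro g hg
  unfold frzL at hg
  rw [List.mem_mapIdx] at hg
  obtain ⟨i, hi, rfl⟩ := hg
  exact frz_isAny _ _

theorem frzL_mono {C : Net n} (hC : C.Monotone) (x : Fin n → Bool) :
    ∀ g ∈ frzL C x, g.Mono := by
  intro g hg
  unfold frzL at hg
  rw [List.mem_mapIdx] at hg
  obtain ⟨i, hi, rfl⟩ := hg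
  exact frz_mono _ _ (hC _ (List.getElem_mem _))

theorem mapIdx_countP (f : ℕ → Node n → Node n)
    (hf : ∀ i g, Node.isGate (f i g) = Node.isGate g) (l : List (Node n)) :
    (l.mapIdx f).countP Node.isGate = l.countP Node.isGate := by
  induction l using List.reverseRecOn with
  | nil => rfl
  | append_singleton l g ih =>
    rw [List.mapIdx_append, List.countP_append, List.countP_append, ih]
    simp [List.countP_cons, hf]

theorem frzL_size (C : Net n) (x : Fin n → Bool) : (frzL C x).countP Node.isGate = C.size := by
  unfold frzL Net.size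
  exact mapIdx_countP _ (fun i g => frz_isGate _ g) _

/-- the value of a node of the circuit frozen at `x` on the input `y` -/
noncomputable def mval (C : Net n) (x y : Fin n → Bool) (k : ℕ) : ℝ :=
  (vals y (frzL C x)).getD k 0

theorem mval_mono {C : Net n} (hC : C.Monotone) (x : Fin n → Bool) {y z : Fin n → Bool}
    (hyz : ∀ i, y i = true → z i = true) (k : ℕ) : mval C x y k ≤ mval C x z k :=
  vals_mono hyz _ (frzL_any C x) (frzL_mono hC x) k

theorem mval_eq_val_aux (C : Net n) (x y : Fin n → Bool) (N : ℕ)
    (h : ∀ (i : ℕ) (hi : i < C.nodes.length), i < N → ∀ k ∈ (C.nodes[i]).reads, k < i →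
      ((0 < C.val x k ↔ 0 < C.val y k) ∨ (0 < C.val x k ↔ 0 < mval C x y k))) :
    ∀ i, i < N → mval C x y i = C.val y i := by
  intro i
  induction i using Nat.strong_induction_on with
  | _ i ih =>
    intro hiN
    by_cases hi : i < C.nodes.length
    · have hi' : i < (frzL C x).length := by rw [frzL_length]; exact hi
      have h1 : (frzL C x)[i] = frz (C.val x i) (C.nodes[i]) := by
        simp [frzL]
      have e1 : mval C x y i = (frz (C.val x i) (C.nodes[i])).eval y
          fun k => if k < i then mval C x y k else 0 := by
        unfold mval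
        rw [vals_getD _ _ _ hi', h1]
      have e2 : C.val y i = (C.nodes[i]).eval y fun k => if k < i then C.val y k else 0 := by
        unfold Net.val
        rw [vals_getD _ _ _ hi]
      have e3 : C.val x i = (C.nodes[i]).eval x fun k => if k < i then C.val x k else 0 := by
        unfold Net.val
        rw [vals_getD _ _ _ hi]
      have e4 : (fun k => if k < i then mval C x y k else 0) =
          fun k => if k < i then C.val y k else 0 := by
        funext k
        split_ifs with hk
        · exact ih k hk (by omega)
        · rfl
      cases hg : C.nodes[i] with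
      | input j => rw [e1, e2, hg]; rfl
      | const c => rw [e1, e2, hg]; rfl
      | sup c l => rw [e1, e2, hg, e4]; rfl
      | gate φ a b => rw [e1, e2, hg, e4]; rfl
      | any l φ =>
        rw [e1, hg]
        simp only [frz, Node.eval]
        rw [e3, e2, hg]
        simp only [Node.eval]
        have e5 : (l.map fun k => decide (0 < if k < i then C.val x k else 0)) =
            l.map fun k => decide (0 < if k < i then C.val y k else 0) := by
          refine List.map_congr_left fun k hk => ?_
          by_cases hki : k < i
          · simp only [if_pos hki, decide_eq_decide]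
            rcases h i hi hiN k (by rw [hg]; exact hk) hki with h2 | h2
            · exact h2
            · rw [h2, ih k hki (by omega)]
          · simp only [if_neg hki]
        rw [e5]
    · unfold mval Net.val
      rw [vals_ge _ _ _ (by rw [frzL_length]; omega), vals_ge _ _ _ (by omega)]

theorem mval_eq_val (C : Net n) (x y : Fin n → Bool)
    (h : ∀ (i : ℕ) (hi : i < C.nodes.length), ∀ k ∈ (C.nodes[i]).reads, k < i →
      ((0 < C.val x k ↔ 0 < C.val y k) ∨ (0 < C.val x k ↔ 0 < mval C x y k))) (i : ℕ) :
    mval C x y i = C.val y i :=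
  mval_eq_val_aux C x y (i + 1) (fun i hi _ k hk hki => h i hi k hk hki) i (by omega)

theorem mval_self (C : Net n) (x : Fin n → Bool) (i : ℕ) : mval C x x i = C.val x i :=
  mval_eq_val C x x (fun _ _ _ _ _ => Or.inl Iff.rfl) i

/-- the watched nodes: the nodes read by arbitrary gates and the output node, if their bit is
zero at `x` -/
def watch (C : Net n) (x : Fin n → Bool) : Set ℕ :=
  {k | (k = C.out ∨ ∃ (i : ℕ) (h : i < C.nodes.length), k ∈ (C.nodes[i]).reads ∧ k < i) ∧
    C.val x k ≤ 0}

/-- the bit of a watched node of the frozen circuit changes -/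
def Ev (C : Net n) (x y : Fin n → Bool) : Prop :=
  ∃ k ∈ watch C x, 0 < (vals y (frzL C x)).getD k 0

theorem val_of_not_ev {C : Net n} (hC : C.Monotone) {x y : Fin n → Bool}
    (hxy : ∀ i, x i = true → y i = true) (h : ¬ Ev C x y) (i : ℕ) :
    mval C x y i = C.val y i := by
  refine mval_eq_val C x y (fun j hj k hk hkj => Or.inr ?_) i
  constructor
  · intro h2
    have := mval_mono hC x hxy k
    rw [mval_self] at this
    linarith
  · intro h2
    by_contra h3
    push Not at h3
    exact h ⟨k, ⟨Or.inr ⟨j, hj, hk, hkj⟩, h3⟩, h2⟩

theorem accepts_of_not_ev {C : Net n} (hC : C.Monotone) {x y : Fin n → Bool}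
    (hxy : ∀ i, x i = true → y i = true) (h : ¬ Ev C x y) : C.Accepts x ↔ C.Accepts y := by
  unfold Net.Accepts
  rw [← val_of_not_ev hC hxy h]
  constructor
  · intro h2
    have := mval_mono hC x hxy C.out
    rw [mval_self] at this
    linarith
  · intro h2
    by_contra h3
    push Not at h3
    exact h ⟨C.out, ⟨Or.inl rfl, h3⟩, h2⟩

theorem val_of_not_change {C : Net n} {x y : Fin n → Bool} (h : ¬ C.Change x y) (i : ℕ) :
    mval C x y i = C.val y i := by
  refine mval_eq_val C x y (fun j hj k hk hkj => Or.inl ?_) i
  by_contra h2
  exact h ⟨j, hj, k, hk, hkj, h2⟩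

/-- if no bit changes then the output is monotone -/
theorem accepts_of_not_change {C : Net n} (hC : C.Monotone) {x y : Fin n → Bool}
    (hxy : ∀ i, x i = true → y i = true) (h : ¬ C.Change x y) (hx : C.Accepts x) :
    C.Accepts y := by
  unfold Net.Accepts at hx ⊢
  rw [← val_of_not_change h]
  have := mval_mono hC x hxy C.out
  rw [mval_self] at this
  linarith

theorem ev_cases {C : Net n} {x y : Fin n → Bool} (h : Ev C x y) :
    C.Change x y ∨ (¬ C.Change x y ∧ ¬ C.Accepts x ∧ C.Accepts y) := by
  by_cases hc : C.Change x y
  · exact Or.inl hc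
  · right
    refine ⟨hc, ?_⟩
    obtain ⟨k, ⟨hk, hx⟩, hy⟩ := h
    have e := val_of_not_change hc k
    unfold mval at e
    rw [e] at hy
    rcases hk with rfl | ⟨j, hj, hk, hkj⟩
    · exact ⟨not_lt.2 hx, hy⟩
    · exact absurd ⟨j, hj, k, hk, hkj, fun h => absurd (h.2 hy) (not_lt.2 hx)⟩ hc

end Pool.Agent.V8H38.NA
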