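import Pool.Agent.V8H38.NA.Defs

/-!
# NOT gates and layers
-/

namespace Pool.Agent.V8H38.NA

namespace Node

variable {n : ℕ}

/-- the arbitrary Boolean gates -/
def isAny : Node n → Bool
  | any _ _ => true
  | _ => false

/-- the nodes read by a maximum gate or a binary gate -/
def ins : Node n → List ℕ
  | sup _ l => l
  | gate _ a b => [a, b]
  | _ => []

/-- a NOT gate: the bit of the node `a` is negated -/
def not (a : ℕ) : Node n := any [a] fun l => !(l.getD 0 false)

end Node

namespace Net

variable {n : ℕ}

/-- The function `lev` is a division of the nodes into layers `0, 1, 2, ...`: a maximum gate or a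
binary gate reads nodes of its own layer or of lower layers, and an arbitrary Boolean gate reads
nodes of lower layers. -/
def Layered (C : Net n) (lev : ℕ → ℕ) : Prop :=
  ∀ (i : ℕ) (h : i < C.nodes.length),
    (∀ k ∈ (C.nodes[i]).ins, k < i → lev k ≤ lev i) ∧
      ∀ k ∈ (C.nodes[i]).reads, k < i → lev k < lev i

open Classical in
/-- The set of the nodes that are read by arbitrary Boolean gates of layer `j`. -/
noncomputable def cut (C : Net n) (lev : ℕ → ℕ) (j : ℕ) : Finset ℕ :=
  (Finset.range C.nodes.length).filter fun k =>
    ∃ (i : ℕ) (h : i < C.nodes.length), k < i ∧ lev i = j ∧ k ∈ (C.nodes[i]).reads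

/-- The product over all layers of `w + 1`, where `w` is the number of nodes that are read by
arbitrary Boolean gates of the layer. -/
noncomputable def combos (C : Net n) (lev : ℕ → ℕ) : ℕ :=
  ∏ j ∈ (Finset.range C.nodes.length).image lev, ((C.cut lev j).card + 1)

end Net

end Pool.Agent.V8H38.NA
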