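import Pool.Agent.V8H38.NA.Sun2
import Pool.Agent.V8H38.NA.DefsL

/-!
# Approximation of circuits with real-valued monotone gates
-/

set_option linter.unusedSectionVars false

namespace Pool.Agent.V8H38.NA

open Finset
open Pool.Agent.V8H38.NL (acc acc_mono acc_sub NN NN_mono NN_const NN_add ind ind_true ind_false
  ind_le ind_le_one ind_nonneg small cnt cnt_eq cnt_mono cnt_or cnt_false cnt_nonneg prodF acc_prodF
  inp not_acc_empty)

variable {V : Type} [Fintype V] [DecidableEq V]

section vals

variable {n : ℕ}

theorem vals_append (x : Fin n → Bool) (l : List (Node n)) (g : Node n) :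
    vals x (l ++ [g]) = vals x l ++ [g.eval x fun k => (vals x l).getD k 0] := by
  simp [vals, List.foldl_append]

theorem vals_nil (x : Fin n → Bool) : vals x ([] : List (Node n)) = [] := rfl

theorem vals_length (x : Fin n → Bool) (l : List (Node n)) : (vals x l).length = l.length := by
  induction l using List.reverseRecOn with
  | nil => rfl
  | append_singleton l g ih => rw [vals_append]; simp [ih]

theorem le_foldr_sup (v : ℕ → ℝ) (c : ℝ) (l : List ℕ) (r : ℝ) :
    r ≤ l.foldr (fun k r => v k ⊔ r) c ↔ r ≤ c ∨ ∃ k ∈ l, r ≤ v k := by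
  induction l with
  | nil => simp
  | cons k l ih =>
    rw [List.foldr_cons, le_sup_iff, ih]
    constructor
    · rintro (h | h | ⟨k', h1, h2⟩)
      · exact Or.inr ⟨k, List.mem_cons_self, h⟩
      · exact Or.inl h
      · exact Or.inr ⟨k', List.mem_cons_of_mem _ h1, h2⟩
    · rintro (h | ⟨k', h1, h2⟩)
      · exact Or.inr (Or.inl h)
      · rcases List.mem_cons.1 h1 with h3 | h3
        · left; rw [← h3]; exact h2
        · exact Or.inr (Or.inr ⟨k', h3, h2⟩)

end vals

/-- the approximator of the constant zero -/
noncomputable def dflt (r : ℝ) : Finset (Finset V) := if r ≤ 0 then {∅} else ∅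

theorem acc_dflt {r : ℝ} {Z : Finset V} : acc (dflt r) Z ↔ r ≤ 0 := by
  unfold dflt
  split_ifs with h
  · simp only [h, iff_true]
    exact ⟨∅, by simp, by simp⟩
  · simp only [h, iff_false]
    exact not_acc_empty

/-- bad event on the noise: an approximator is one and the value of the gate is smaller -/
def badN {n : ℕ} (σ : Fin n → Bool ⊕ V) (x : Finset V) (L : List (Node n))
    (A : List (ℝ → Finset (Finset V))) (Z : Finset V) : Prop :=
  ∃ i r, acc (A.getD i dflt r) Z ∧ (vals (inp σ (x ∪ Z)) L).getD i 0 < r

/-- bad event on the planted set: the value of the gate is large and its approximator is zero -/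
def badP {n : ℕ} (σ : Fin n → Bool ⊕ V) (x : Finset V) (L : List (Node n))
    (A : List (ℝ → Finset (Finset V))) (Z : Finset V) : Prop :=
  ∃ i r, r ≤ (vals (inp σ (x ∪ Z)) L).getD i 0 ∧ ¬ acc (A.getD i dflt r) Z

theorem badN_append {n : ℕ} {σ : Fin n → Bool ⊕ V} {x : Finset V} {L : List (Node n)}
    {A : List (ℝ → Finset (Finset V))} (hA : A.length = L.length) (g : Node n)
    (F : ℝ → Finset (Finset V)) {Z : Finset V} (h : badN σ x (L ++ [g]) (A ++ [F]) Z) :
    badN σ x L A Z ∨ ∃ r, acc (F r) Z ∧
      g.eval (inp σ (x ∪ Z)) (fun k => (vals (inp σ (x ∪ Z)) L).getD k 0) < r := by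
  obtain ⟨i, r, h1, h2⟩ := h
  rw [vals_append] at h2
  rcases lt_trichotomy i L.length with hi | hi | hi
  · left
    refine ⟨i, r, ?_, ?_⟩
    · rwa [List.getD_append _ _ _ _ (by omega)] at h1
    · rwa [List.getD_append _ _ _ _ (by rw [vals_length]; omega)] at h2
  · right
    rw [List.getD_append_right _ _ _ _ (by omega), hA, hi, Nat.sub_self] at h1
    rw [List.getD_append_right _ _ _ _ (by rw [vals_length]; omega), vals_length, hi,
      Nat.sub_self] at h2
    exact ⟨r, h1, h2⟩
  · rw [List.getD_eq_default _ _ (by simp; omega)] at h1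
    rw [List.getD_eq_default _ _ (by simp [vals_length]; omega)] at h2
    rw [acc_dflt] at h1
    exact absurd h1 (not_le.2 h2)

theorem badP_append {n : ℕ} {σ : Fin n → Bool ⊕ V} {x : Finset V} {L : List (Node n)}
    {A : List (ℝ → Finset (Finset V))} (hA : A.length = L.length) (g : Node n)
    (F : ℝ → Finset (Finset V)) {Z : Finset V} (h : badP σ x (L ++ [g]) (A ++ [F]) Z) :
    badP σ x L A Z ∨ ∃ r, r ≤ g.eval (inp σ (x ∪ Z))
      (fun k => (vals (inp σ (x ∪ Z)) L).getD k 0) ∧ ¬ acc (F r) Z := by
  obtain ⟨i, r, h1, h2⟩ := h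
  rw [vals_append] at h1
  rcases lt_trichotomy i L.length with hi | hi | hi
  · left
    refine ⟨i, r, ?_, ?_⟩
    · rwa [List.getD_append _ _ _ _ (by rw [vals_length]; omega)] at h1
    · rwa [List.getD_append _ _ _ _ (by omega)] at h2
  · right
    rw [List.getD_append_right _ _ _ _ (by omega), hA, hi, Nat.sub_self] at h2
    rw [List.getD_append_right _ _ _ _ (by rw [vals_length]; omega), vals_length, hi,
      Nat.sub_self] at h1
    exact ⟨r, h1, h2⟩
  · rw [List.getD_eq_default _ _ (by simp; omega)] at h2
    rw [List.getD_eq_default _ _ (by simp [vals_length]; omega)] at h1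
    exact absurd (acc_dflt.2 h1) h2

/-- **Approximation of a circuit with real-valued monotone gates.** -/
theorem circ_appr {W : Type} [Fintype W] (Γ : W → Finset V) {p : ℝ} (h0 : 0 < p) (h1 : p ≤ 1)
    {l m κ q : ℕ} (hl : 1 ≤ l) (hκ : 0 < κ) (hk : 2 * ((2 * l : ℕ) : ℝ) ≤ κ * p)
    (hq : 2 * κ ≤ q)
    (hΓ : ∀ S : Finset V, S.card ≤ 2 * l → cnt (fun w => S ⊆ Γ w) * q ^ S.card ≤ Fintype.card W)
    {n : ℕ} (σ : Fin n → Bool ⊕ V) (x : Finset V) :
    ∀ L : List (Node n), (∀ g ∈ L, g.isAny = false) → (∀ g ∈ L, g.Mono) →
    ∃ A : List (ℝ → Finset (Finset V)), A.length = L.length ∧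
      (∀ i r, ∀ S ∈ A.getD i dflt r, S.card ≤ l) ∧
      NN p m (ind (badN σ x L A)) ∅ ≤
        L.countP Node.isGate * ((small V (2 * l)).card * (1 / 2) ^ m) ∧
      cnt (fun w => badP σ x L A (Γ w)) ≤
        L.countP Node.isGate * ((1 / 2) ^ l * Fintype.card W) := by
  classical
  intro L
  induction L using List.reverseRecOn with
  | nil =>
    intro _ _
    refine ⟨[], rfl, ?_, ?_, ?_⟩
    · intro i r S hS
      simp only [List.getD_nil] at hS
      unfold dflt at hS
      split_ifs at hS
      · simp only [Finset.mem_singleton] at hS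
        subst hS
        simp
      · simp at hS
    · have : ind (badN σ x ([] : List (Node n)) []) = fun _ => 0 := by
        funext Z
        refine ind_false ?_
        rintro ⟨i, r, h, h2⟩
        simp only [List.getD_nil, vals_nil] at h h2
        rw [acc_dflt] at h
        exact absurd h (not_le.2 h2)
      rw [this, NN_const]
      simp
    · rw [cnt_false]
      · simp
      · rintro w ⟨i, r, h, h2⟩
        simp only [List.getD_nil, vals_nil] at h h2
        exact h2 (acc_dflt.2 h)
  | append_singleton L g ih =>
    intro hL hM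
    obtain ⟨A, hA1, hA2, hA3, hA4⟩ := ih (fun g' hg' => hL g' (List.mem_append_left _ hg'))
      (fun g' hg' => hM g' (List.mem_append_left _ hg'))
    have hL2 : g.isAny = false := hL g (by simp)
    have hM2 : g.Mono := hM g (by simp)
    set εN : ℝ := (small V (2 * l)).card * (1 / 2) ^ m with hεN
    set εP : ℝ := (1 / 2) ^ l * Fintype.card W with hεP
    -- the generic step
    have step : ∀ (F : ℝ → Finset (Finset V)) (c : ℕ), (∀ r, ∀ S ∈ F r, S.card ≤ l) →
        (L ++ [g]).countP Node.isGate = L.countP Node.isGate + c →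
        (NN p m (ind fun Z => ¬ badN σ x L A Z ∧ ∃ r, acc (F r) Z ∧
          g.eval (inp σ (x ∪ Z)) (fun k => (vals (inp σ (x ∪ Z)) L).getD k 0) < r) ∅ ≤ c * εN) →
        (cnt (fun w => ¬ badP σ x L A (Γ w) ∧ ∃ r, r ≤
          g.eval (inp σ (x ∪ Γ w)) (fun k => (vals (inp σ (x ∪ Γ w)) L).getD k 0) ∧
            ¬ acc (F r) (Γ w)) ≤ c * εP) →
        ∃ A' : List (ℝ → Finset (Finset V)), A'.length = (L ++ [g]).length ∧
          (∀ i r, ∀ S ∈ A'.getD i dflt r, S.card ≤ l) ∧
          NN p m (ind (badN σ x (L ++ [g]) A')) ∅ ≤ (L ++ [g]).countP Node.isGate * εN ∧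
          cnt (fun w => badP σ x (L ++ [g]) A' (Γ w)) ≤
            (L ++ [g]).countP Node.isGate * εP := by
      intro F c hF hc hN hP
      refine ⟨A ++ [F], by simp [hA1], ?_, ?_, ?_⟩
      · intro i r S hS
        rcases lt_trichotomy i A.length with hi | hi | hi
        · rw [List.getD_append _ _ _ _ hi] at hS
          exact hA2 i r S hS
        · rw [List.getD_append_right _ _ _ _ (by omega), hi, Nat.sub_self] at hS
          exact hF r S hS
        · rw [List.getD_eq_default _ _ (by simp; omega)] at hS
          unfold dflt at hS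
          split_ifs at hS
          · simp only [Finset.mem_singleton] at hS
            subst hS
            simp
          · simp at hS
      · have e1 : NN p m (ind (badN σ x (L ++ [g]) (A ++ [F]))) ∅ ≤
            NN p m (fun Z => ind (badN σ x L A) Z + ind (fun Z => ¬ badN σ x L A Z ∧
              ∃ r, acc (F r) Z ∧ g.eval (inp σ (x ∪ Z))
                (fun k => (vals (inp σ (x ∪ Z)) L).getD k 0) < r) Z) ∅ := by
          refine NN_mono h0.le h1 m fun Z _ => ?_
          by_cases hb : badN σ x L A Z
          · rw [ind_true hb]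
            have h2 := ind_le_one (badN σ x (L ++ [g]) (A ++ [F])) Z
            have h3 := ind_nonneg (fun Z => ¬ badN σ x L A Z ∧ ∃ r, acc (F r) Z ∧
              g.eval (inp σ (x ∪ Z)) (fun k => (vals (inp σ (x ∪ Z)) L).getD k 0) < r) Z
            linarith
          · rw [ind_false hb, zero_add]
            refine ind_le fun h => ?_
            rcases badN_append hA1 g F h with h' | h'
            · exact absurd h' hb
            · exact ⟨hb, h'⟩
        rw [NN_add] at e1
        rw [hc]
        push_cast
        simp only at e1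
        linarith
      · have e1 : cnt (fun w => badP σ x (L ++ [g]) (A ++ [F]) (Γ w)) ≤
            cnt (fun w => badP σ x L A (Γ w) ∨ (¬ badP σ x L A (Γ w) ∧
              ∃ r, r ≤ g.eval (inp σ (x ∪ Γ w))
                (fun k => (vals (inp σ (x ∪ Γ w)) L).getD k 0) ∧ ¬ acc (F r) (Γ w))) := by
          refine cnt_mono fun w h => ?_
          by_cases hb : badP σ x L A (Γ w)
          · exact Or.inl hb
          · right
            rcases badP_append hA1 g F h with h' | h'
            · exact absurd h' hb
            · exact ⟨hb, h'⟩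
        have e2 := e1.trans (cnt_or _ _)
        rw [hc]
        push_cast
        linarith
    have zeroN : ∀ (P : Finset V → Prop), (∀ Z, ¬ P Z) → NN p m (ind P) ∅ ≤ ((0:ℕ):ℝ) * εN := by
      intro P hP
      have : ind P = fun _ => 0 := funext fun Z => ind_false (hP Z)
      rw [this, NN_const]; simp
    have zeroP : ∀ (P : W → Prop), (∀ w, ¬ P w) → cnt P ≤ ((0:ℕ):ℝ) * εP := by
      intro P hP
      rw [cnt_false hP]; simp
    -- a node with a constant value
    have constStep : ∀ c : ℝ, (∀ Z : Finset V, g.eval (inp σ (x ∪ Z))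
        (fun k => (vals (inp σ (x ∪ Z)) L).getD k 0) = c) → g.isGate = false →
        ∃ A' : List (ℝ → Finset (Finset V)), A'.length = (L ++ [g]).length ∧
          (∀ i r, ∀ S ∈ A'.getD i dflt r, S.card ≤ l) ∧
          NN p m (ind (badN σ x (L ++ [g]) A')) ∅ ≤ (L ++ [g]).countP Node.isGate * εN ∧
          cnt (fun w => badP σ x (L ++ [g]) A' (Γ w)) ≤
            (L ++ [g]).countP Node.isGate * εP := by
      intro c hc hg
      refine step (fun r => if r ≤ c then {∅} else ∅) 0 ?_ (by simp [hg, List.countP_append])
        (zeroN _ ?_) (zeroP _ ?_)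
      · intro r S hS
        split_ifs at hS
        · simp only [Finset.mem_singleton] at hS
          subst hS
          simp
        · simp at hS
      · rintro Z ⟨-, r, h, h2⟩
        rw [hc] at h2
        rw [if_neg (not_le.2 h2)] at h
        exact not_acc_empty h
      · rintro w ⟨-, r, h, h2⟩
        rw [hc] at h
        rw [if_pos h] at h2
        exact h2 ⟨∅, by simp, by simp⟩
    cases g with
    | input j =>
      cases hj : σ j with
      | inl b =>
        refine constStep (if b = true then 1 else 0) (fun Z => ?_) rfl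
        simp [Node.eval, inp, hj]
      | inr v =>
        by_cases hv : v ∈ x
        · refine constStep 1 (fun Z => ?_) rfl
          simp [Node.eval, inp, hj, hv]
        · have hval : ∀ Z, (Node.input j).eval (inp σ (x ∪ Z))
              (fun k => (vals (inp σ (x ∪ Z)) L).getD k 0) = if v ∈ Z then 1 else 0 := by
            intro Z; simp [Node.eval, inp, hj, hv]
          refine step (fun r => if r ≤ 0 then {∅} else if r ≤ 1 then {{v}} else ∅) 0 ?_
            (by simp [Node.isGate, List.countP_append]) (zeroN _ ?_) (zeroP _ ?_)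
          · intro r S hS
            split_ifs at hS
            · simp only [Finset.mem_singleton] at hS
              subst hS
              simp
            · simp only [Finset.mem_singleton] at hS
              subst hS
              simpa using hl
            · simp at hS
          · rintro Z ⟨-, r, h, h'⟩
            rw [hval] at h'
            by_cases hr0 : r ≤ 0
            · have : (0:ℝ) ≤ if v ∈ Z then 1 else 0 := by split_ifs <;> norm_num
              linarith
            · rw [if_neg hr0] at h
              by_cases hr1 : r ≤ 1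
              · rw [if_pos hr1] at h
                obtain ⟨S, hS, hSZ⟩ := h
                rw [Finset.mem_singleton] at hS
                subst hS
                rw [if_pos (by simpa using hSZ)] at h'
                linarith
              · rw [if_neg hr1] at h
                exact not_acc_empty h
          · rintro w ⟨-, r, h, h'⟩
            rw [hval] at h
            by_cases hr0 : r ≤ 0
            · rw [if_pos hr0] at h'
              exact h' ⟨∅, by simp, by simp⟩
            · rw [if_neg hr0] at h'
              by_cases hvw : v ∈ Γ w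
              · rw [if_pos hvw] at h
                rw [if_pos h] at h'
                exact h' ⟨{v}, by simp, by simpa using hvw⟩
              · rw [if_neg hvw] at h
                exact hr0 h
    | const c => exact constStep c (fun Z => rfl) rfl
    | sup c l' =>
      let F : ℝ → Finset (Finset V) := fun r =>
        (if r ≤ c then {∅} else ∅) ∪ l'.toFinset.biUnion fun k => A.getD k dflt r
      have hFacc : ∀ r Z, acc (F r) Z ↔ r ≤ c ∨ ∃ k ∈ l', acc (A.getD k dflt r) Z := by
        intro r Z
        constructor
        · rintro ⟨S, hS, hSZ⟩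
          rcases Finset.mem_union.1 hS with h | h
          · left
            by_contra hr
            rw [if_neg hr] at h
            simp at h
          · rw [Finset.mem_biUnion] at h
            obtain ⟨k, hk, h⟩ := h
            exact Or.inr ⟨k, List.mem_toFinset.1 hk, S, h, hSZ⟩
        · rintro (h | ⟨k, hk, S, h, hSZ⟩)
          · refine ⟨∅, Finset.mem_union_left _ ?_, by simp⟩
            rw [if_pos h]; simp
          · exact ⟨S, Finset.mem_union_right _ (Finset.mem_biUnion.2
              ⟨k, List.mem_toFinset.2 hk, h⟩), hSZ⟩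
      refine step F 0 ?_ (by simp [Node.isGate, List.countP_append]) (zeroN _ ?_) (zeroP _ ?_)
      · intro r S hS
        rcases Finset.mem_union.1 hS with h | h
        · split_ifs at h
          · simp only [Finset.mem_singleton] at h
            subst h
            simp
          · simp at h
        · rw [Finset.mem_biUnion] at h
          obtain ⟨k, hk, h⟩ := h
          exact hA2 k r S h
      · rintro Z ⟨hb, r, h, h2⟩
        refine absurd ?_ (not_le.2 h2)
        simp only [Node.eval]
        rw [le_foldr_sup]
        rcases (hFacc r Z).1 h with h3 | ⟨k, hk, h3⟩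
        · exact Or.inl h3
        · refine Or.inr ⟨k, hk, ?_⟩
          by_contra h4
          exact hb ⟨k, r, h3, not_le.1 h4⟩
      · rintro w ⟨hb, r, h, h2⟩
        simp only [Node.eval] at h
        rw [le_foldr_sup] at h
        refine h2 ((hFacc r _).2 ?_)
        rcases h with h3 | ⟨k, hk, h3⟩
        · exact Or.inl h3
        · refine Or.inr ⟨k, hk, ?_⟩
          by_contra h4
          exact hb ⟨k, r, h3, h4⟩
    | any l' φ => simp [Node.isAny] at hL2
    | gate φ a b =>
      let F : ℝ → Finset (Finset V) := fun r => Finset.univ.filter fun S =>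
        ∃ s t, r ≤ φ s t ∧ S ∈ prodF (A.getD a dflt s) (A.getD b dflt t)
      have hFmem : ∀ r S, S ∈ F r ↔ ∃ s t, r ≤ φ s t ∧
          S ∈ prodF (A.getD a dflt s) (A.getD b dflt t) := by
        intro r S
        simp only [F, Finset.mem_filter, Finset.mem_univ, true_and]
      have hFacc : ∀ r Z, acc (F r) Z ↔ ∃ s t, r ≤ φ s t ∧ acc (A.getD a dflt s) Z ∧
          acc (A.getD b dflt t) Z := by
        intro r Z
        constructor
        · rintro ⟨S, hS, hSZ⟩
          rw [hFmem] at hS
          obtain ⟨s, t, h2, h3⟩ := hS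
          exact ⟨s, t, h2, acc_prodF.1 ⟨S, h3, hSZ⟩⟩
        · rintro ⟨s, t, h2, h3⟩
          obtain ⟨S, hS, hSZ⟩ := acc_prodF.2 h3
          exact ⟨S, (hFmem _ _).2 ⟨s, t, h2, hS⟩, hSZ⟩
      have hF : ∀ r, ∀ S ∈ F r, S.card ≤ 2 * l := by
        intro r S hS
        rw [hFmem] at hS
        obtain ⟨s, t, _, h3⟩ := hS
        unfold prodF at h3
        obtain ⟨c, hc, rfl⟩ := Finset.mem_image.1 h3
        rw [Finset.mem_product] at hc
        have h2 := hA2 a s _ hc.1
        have h3 := hA2 b t _ hc.2
        have h4 := Finset.card_union_le c.1 c.2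
        omega
      have hanti : ∀ r r', r ≤ r' → F r' ⊆ F r := by
        intro r r' hr S hS
        rw [hFmem] at hS ⊢
        obtain ⟨s, t, h2, h3⟩ := hS
        exact ⟨s, t, hr.trans h2, h3⟩
      have hφ : ∀ s s' t t' : ℝ, s ≤ s' → t ≤ t' → φ s t ≤ φ s' t' := hM2
      obtain ⟨K, hK1, hK2, hK3⟩ := gate_real Γ h0 h1 (m := m) hκ hk hq hΓ F hanti hF
      refine step K 1 hK1 (by simp [Node.isGate, List.countP_append]) ?_ ?_
      · rw [Nat.cast_one, one_mul]
        refine le_trans (NN_mono h0.le h1 m fun Z _ => ind_le ?_) hK2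
        rintro ⟨hb, r, h2, h3⟩
        refine ⟨r, h2, fun h4 => ?_⟩
        rw [hFacc] at h4
        obtain ⟨s, t, h5, h6, h7⟩ := h4
        have h8 : s ≤ (vals (inp σ (x ∪ Z)) L).getD a 0 := by
          by_contra h
          exact hb ⟨a, s, h6, not_le.1 h⟩
        have h9 : t ≤ (vals (inp σ (x ∪ Z)) L).getD b 0 := by
          by_contra h
          exact hb ⟨b, t, h7, not_le.1 h⟩
        have h10 := hφ _ _ _ _ h8 h9
        simp only [Node.eval] at h3
        linarith
      · rw [Nat.cast_one, one_mul]
        refine le_trans (cnt_mono ?_) hK3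
        rintro w ⟨hb, r, h2, h3⟩
        refine ⟨r, ?_, h3⟩
        rw [hFacc]
        refine ⟨_, _, h2, ?_, ?_⟩
        · by_contra h; exact hb ⟨a, _, le_rfl, h⟩
        · by_contra h; exact hb ⟨b, _, le_rfl, h⟩

end Pool.Agent.V8H38.NA
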