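import Pool.Agent.V8H38.NL.CliqueMain
import Pool.Agent.V8H38.NA.Law
import Pool.Agent.V8H38.NA.Order

/-!
# The law for the clique function and for the half-clique language
-/

namespace Pool.Agent.V8H38.NA

open Finset
open Pool.Agent.V8H38.NL (small card_small_le Vtx Blk Tot exists_code gr card_gr sig padBits
  padBits_gph padBits_self clique_gph adjBits halfClique_pad inp labT)

/-- an equivalence which maps the preimages of a small set into `U` -/
theorem exists_equiv {v : ℕ} (U : Finset (Fin v)) {β : Type} [Fintype β] [DecidableEq β]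
    (hc : Fintype.card (Fin v) = Fintype.card β) (B : Finset β) (hB : B.card ≤ U.card) :
    ∃ e : Fin v ≃ β, ∀ i, e i ∈ B → i ∈ U := by
  classical
  let e₀ : Fin v ≃ β := Fintype.equivOfCardEq hc
  let T₀ : Finset (Fin v) := B.map e₀.symm.toEmbedding
  have hT : T₀.card = B.card := Finset.card_map _
  obtain ⟨S, hS1, hS2⟩ := Finset.exists_subset_card_eq (hT.le.trans hB)
  have hcard : Fintype.card {x // x ∈ S} = Fintype.card {x // x ∈ T₀} := by
    rw [Fintype.card_coe, Fintype.card_coe, hS2]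
  let e₁ : {x // x ∈ S} ≃ {x // x ∈ T₀} := Fintype.equivOfCardEq hcard
  refine ⟨(e₁.extendSubtype).trans e₀, fun i hi => ?_⟩
  by_contra hU
  have h1 : i ∉ S := fun h => hU (hS1 h)
  have h2 := e₁.extendSubtype_not_mem i h1
  apply h2
  rw [Equiv.trans_apply] at hi
  refine Finset.mem_map.2 ⟨_, hi, ?_⟩
  simp

/-- **The law for the clique function.** -/
theorem clique_avg (n v k lam μ r : ℕ) (U : Finset (Fin v)) (hU : 1 ≤ U.card) (hrpos : 0 < r)
    (h1 : U.card ^ 2 < 2 ^ lam) (hlm : lam ≤ μ) (h2 : 270 * (lam ^ 3 * μ ^ 2) ≤ k)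
    (h3 : 2 * k ≤ v) (h4 : 2 ^ 23 * r * (lam ^ 3 * μ ^ 4) ≤ U.card ^ 2) :
    ∃ (D : (Fin n → Bool) → ℝ) (z : Fin n → Bool) (P : Equiv.Perm (Fin n) → ℝ),
      (∀ x, 0 ≤ D x) ∧ ∑ x, D x = 1 ∧ (∀ x, D x ≠ 0 → ∀ a, a ∉ inside n U → x a = z a) ∧
      (∀ π, 0 ≤ P π) ∧ ∑ π, P π = 1 ∧
      ∀ f : (Fin n → Bool) → Prop, (∀ G : SimpleGraph (Fin v), f (padBits n G) ↔
        ∃ S : Finset (Fin v), k ≤ S.card ∧ G.IsClique (S : Set (Fin v))) →
      ∀ C : Net n, C.Monotone → C.size ≤ 2 ^ μ →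
        C.agree D f ≤
          1 / 2 + 2 * (1 + ∑ π, P π * (C.activity (inside n U) z π : ℝ)) / r := by
  classical
  have huv : U.card ≤ v := by
    have := Finset.card_le_univ U
    rwa [Fintype.card_fin] at this
  have hlam1 : 1 ≤ lam := by
    by_contra h0
    have : lam = 0 := by omega
    subst this
    have : 1 ≤ U.card ^ 2 := Nat.one_le_pow _ _ hU
    simp only [pow_zero] at h1
    omega
  have hμ1 : 1 ≤ μ := hlam1.trans hlm
  set l := μ + lam + 1 with hl
  set m := 2 + μ + lam + lam * (2 * l) with hm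
  set R := 2 * (r * m) with hR
  have hmpos : 0 < m := by omega
  have hRpos : 0 < R := by positivity
  set q₀ := 8 * l * R with hq₀
  have hq₀pos : 0 < q₀ := by positivity
  set κ := Nat.clog 4 q₀ with hκ
  have hq1 : q₀ ≤ 4 ^ κ := Nat.le_pow_clog (by norm_num) _
  have hlμ : 1 ≤ lam * μ := Nat.mul_pos hlam1 hμ1
  have hμlμ : μ ≤ lam * μ := Nat.le_mul_of_pos_left _ hlam1
  have hlamlμ : lam ≤ lam * μ := Nat.le_mul_of_pos_right _ hμ1
  have hl3 : l ≤ 3 * μ := by omega
  have hm10 : m ≤ 10 * (lam * μ) := by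
    have h5 : lam * (2 * l) ≤ lam * (4 * μ + 2) := Nat.mul_le_mul_left _ (by omega)
    have h6 : lam * (4 * μ + 2) = 4 * (lam * μ) + 2 * lam := by ring
    omega
  have hq₀le : q₀ ≤ 480 * (r * lam * μ ^ 2) := by
    calc q₀ = 16 * (l * (r * m)) := by rw [hq₀, hR]; ring
      _ ≤ 16 * ((3 * μ) * (r * (10 * (lam * μ)))) := by gcongr
      _ = 480 * (r * lam * μ ^ 2) := by ring
  have hq₀ge : 32 * (lam * μ) ≤ q₀ := by
    calc 32 * (lam * μ) = 16 * (1 * (1 * (lam * (2 * μ)))) := by ring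
      _ ≤ 16 * (l * (r * m)) := by
        gcongr
        · omega
        · omega
        · have : lam * (2 * μ) ≤ lam * (2 * l) := Nat.mul_le_mul_left _ (by omega)
          omega
      _ = q₀ := by rw [hq₀, hR]; ring
  have hκ1 : 1 ≤ κ := Nat.clog_pos (by norm_num) (by omega)
  have hq2 : 4 ^ κ ≤ 1920 * (r * lam * μ ^ 2) := by
    have : 4 ^ (κ - 1) < q₀ := Nat.pow_pred_clog_lt_self (by norm_num) (by omega)
    calc 4 ^ κ = 4 * 4 ^ (κ - 1) := by
          rw [← pow_succ']; congr 1; omega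
      _ ≤ 4 * (480 * (r * lam * μ ^ 2)) := by gcongr; omega
      _ = _ := by ring
  have hpow : ∀ a b c d : ℕ, a ≤ b → c ≤ d → lam ^ a * μ ^ c ≤ lam ^ b * μ ^ d :=
    fun a b c d h h' => Nat.mul_le_mul (Nat.pow_le_pow_right hlam1 h)
      (Nat.pow_le_pow_right hμ1 h')
  have h4κ : 4 ^ κ < 2 ^ lam := by
    calc 4 ^ κ ≤ 1920 * (r * lam * μ ^ 2) := hq2
      _ = 1920 * r * (lam ^ 1 * μ ^ 2) := by ring
      _ ≤ 2 ^ 23 * r * (lam ^ 3 * μ ^ 4) :=
        Nat.mul_le_mul (Nat.mul_le_mul_right _ (by norm_num)) (hpow 1 3 2 4 (by omega) (by omega))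
      _ ≤ U.card ^ 2 := h4
      _ < 2 ^ lam := h1
  have hκμ : 2 * κ ≤ lam := by
    have : (2:ℕ) ^ (2 * κ) < 2 ^ lam := by rw [pow_mul]; norm_num; exact h4κ
    exact ((Nat.pow_lt_pow_iff_right (by norm_num)).1 this).le
  set d := 2 * l with hd
  set D := 2 * κ * d with hD
  set M := D + lam with hM
  have hDpos : 0 < D := by positivity
  have hD6 : D ≤ 6 * (lam * μ) := by
    calc D = (2 * κ) * (2 * l) := by rw [hD, hd]
      _ ≤ lam * (2 * (3 * μ)) := by gcongr
      _ = 6 * (lam * μ) := by ring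
  have hM7 : M ≤ 7 * (lam * μ) := by omega
  have hM4 : M ≤ 4 ^ κ := by omega
  have hd4 : d ≤ 4 ^ κ := by omega
  obtain ⟨A, hA⟩ := exists_code (M := M) (κ := κ) (d := d) hκ1 hM4 hd4
  -- counts
  have hcB : Fintype.card (Blk M κ D) = M * (2 * κ) * D + 2 * M := by
    rw [Fintype.card_sum, Fintype.card_prod, Fintype.card_prod, Fintype.card_prod,
      Fintype.card_prod, Fintype.card_bool, Fintype.card_fin, Fintype.card_fin, Fintype.card_fin]
    ring
  have hcS : Fintype.card ((Fin M × Bool) × (Fin κ → ZMod 2)) = 2 * M * 2 ^ κ := by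
    rw [Fintype.card_prod, Fintype.card_prod, Fintype.card_fun, ZMod.card,
      Fintype.card_bool, Fintype.card_fin, Fintype.card_fin]
    ring
  have hcU : Fintype.card (Vtx M κ D) = 4 * (M * (2 * κ) * D) + 2 * M * 2 ^ κ := by
    rw [Fintype.card_sum, hcS, Fintype.card_prod, Fintype.card_prod, Fintype.card_prod,
      Fintype.card_prod, Fintype.card_prod, ZMod.card,
      Fintype.card_bool, Fintype.card_fin, Fintype.card_fin, Fintype.card_fin]
    ring
  have hMκD : M * (2 * κ) * D ≤ 42 * (lam ^ 3 * μ ^ 2) := by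
    calc M * (2 * κ) * D ≤ (7 * (lam * μ)) * lam * (6 * (lam * μ)) := by gcongr
      _ = 42 * (lam ^ 3 * μ ^ 2) := by ring
  have h14 : lam * μ ≤ lam ^ 3 * μ ^ 2 := by
    calc lam * μ = lam ^ 1 * μ ^ 1 := by ring
      _ ≤ _ := hpow 1 3 1 2 (by omega) (by omega)
  have hBk : Fintype.card (Blk M κ D) ≤ k := by
    rw [hcB]
    omega
  have hR2 : 4 * (2 * M * 2 ^ κ) ≤ U.card := by
    rw [← Nat.pow_le_pow_iff_left (n := 2) (by norm_num)]
    calc (4 * (2 * M * 2 ^ κ)) ^ 2 = 64 * M ^ 2 * (2 ^ κ) ^ 2 := by ring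
      _ = 64 * M ^ 2 * 4 ^ κ := by rw [← pow_mul, mul_comm κ 2, pow_mul]; norm_num
      _ ≤ 64 * (7 * (lam * μ)) ^ 2 * (1920 * (r * lam * μ ^ 2)) := by gcongr
      _ = 6021120 * r * (lam ^ 3 * μ ^ 4) := by ring
      _ ≤ 2 ^ 23 * r * (lam ^ 3 * μ ^ 4) := by
        gcongr
        norm_num
      _ ≤ U.card ^ 2 := h4
  set u₀ := k - Fintype.card (Blk M κ D) with hu₀
  set ρ := v - (Fintype.card (Vtx M κ D) + u₀) with hρ
  have hcard : Fintype.card (Fin v) = Fintype.card (Tot M κ D u₀ ρ) := by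
    rw [Fintype.card_sum, Fintype.card_sum, Fintype.card_fin, Fintype.card_fin, Fintype.card_fin]
    omega
  obtain ⟨e, he⟩ := exists_equiv U hcard
    ((Finset.univ : Finset ((Fin M × Bool) × (Fin κ → ZMod 2))).map
      ⟨fun x => (Sum.inl (Sum.inl (Sum.inr x)) : Tot M κ D u₀ ρ), fun a b h => by simpa using h⟩)
    (by rw [Finset.card_map, Finset.card_univ, hcS]; omega)
  have he' : ∀ i u, e i = Sum.inl (Sum.inl (Sum.inr u)) → i ∈ U := by
    intro i u h
    refine he i ?_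
    rw [h]
    exact Finset.mem_map.2 ⟨u, Finset.mem_univ _, rfl⟩
  -- the substitution is constant outside of `U`
  have hσ : ∀ i : Fin n, i ∉ inside n U → ∃ c, sig n A e i = Sum.inl c := by
    intro i hi
    unfold sig
    split_ifs with hlt
    · set a := (finProdFinEquiv.symm (⟨i, hlt⟩ : Fin (v * v))).1 with ha
      set b := (finProdFinEquiv.symm (⟨i, hlt⟩ : Fin (v * v))).2 with hb
      have hab : (i : ℕ) = (a : ℕ) * v + (b : ℕ) := by
        have h5 : finProdFinEquiv (a, b) = (⟨i, hlt⟩ : Fin (v * v)) := by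
          rw [ha, hb, Prod.mk.eta, Equiv.apply_symm_apply]
        have h6 := congrArg Fin.val h5
        rw [finProdFinEquiv_apply_val] at h6
        simp only at h6
        rw [← h6]
        ring
      have hnot : a ∉ U ∨ b ∉ U := by
        by_contra h
        push Not at h
        apply hi
        unfold inside
        rw [Finset.mem_filter]
        exact ⟨Finset.mem_univ _, a, h.1, b, h.2, hab⟩
      rcases hea : e a with ((x | x) | x) | x <;> rcases heb : e b with ((y | y) | y) | y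
      case inl.inl.inr.inl.inl.inr =>
        exact absurd (he' a x hea) (by
          rcases hnot with h | h
          · exact h
          · exact absurd (he' b y heb) h)
      all_goals exact ⟨_, rfl⟩
    · exact ⟨_, rfl⟩
  have hinp : ∀ X : Finset (Fin M × (Bool × Fin κ → ZMod 2)), ∀ i : Fin n, i ∉ inside n U →
      inp (sig n A e) X i = inp (sig n A e) ∅ i := by
    intro X i hi
    obtain ⟨c, hc⟩ := hσ i hi
    unfold inp
    rw [hc]
  have hk2 : 2 ≤ k := by
    have : 1 ≤ lam ^ 3 * μ ^ 2 := hlμ.trans h14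
    omega
  have hkk : k = Fintype.card (Blk M κ D ⊕ Fin u₀) := by
    rw [Fintype.card_sum, Fintype.card_fin]
    omega
  have hr1 : r ≤ 2 ^ 23 * r * (lam ^ 3 * μ ^ 4) := by
    calc r = 1 * r * (lam ^ 0 * μ ^ 0) := by ring
      _ ≤ 2 ^ 23 * r * (lam ^ 3 * μ ^ 4) :=
        Nat.mul_le_mul (Nat.mul_le_mul_right _ (by norm_num)) (hpow 0 3 0 4 (by omega) (by omega))
  have hr2 : r ≤ 2 ^ lam := by omega
  have hW : r * Fintype.card (Fin D → ZMod 2) ≤ 2 ^ M := by
    rw [Fintype.card_fun, ZMod.card, Fintype.card_fin, hM, pow_add, mul_comm]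
    exact Nat.mul_le_mul_left _ hr2
  have hs1 : 2 * (2 ^ μ * r) ≤ 2 ^ l := by
    calc 2 * (2 ^ μ * r) ≤ 2 * (2 ^ μ * 2 ^ lam) := by gcongr
      _ = 2 ^ l := by rw [hl]; ring
  have hcV : Fintype.card (Fin M × (Bool × Fin κ → ZMod 2)) + 1 ≤ 2 ^ lam := by
    have : Fintype.card (Fin M × (Bool × Fin κ → ZMod 2)) = M * 4 ^ κ := by
      rw [Fintype.card_prod, Fintype.card_fun, ZMod.card, Fintype.card_prod, Fintype.card_bool,
        Fintype.card_fin, Fintype.card_fin, pow_mul]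
      norm_num
    rw [this]
    have : M * 4 ^ κ ≤ 2 ^ 23 * r * (lam ^ 3 * μ ^ 4) := by
      calc M * 4 ^ κ ≤ (7 * (lam * μ)) * (1920 * (r * lam * μ ^ 2)) := by gcongr
        _ = 13440 * r * (lam ^ 2 * μ ^ 3) := by ring
        _ ≤ 2 ^ 23 * r * (lam ^ 3 * μ ^ 4) :=
          Nat.mul_le_mul (Nat.mul_le_mul_right _ (by norm_num))
            (hpow 2 3 3 4 (by omega) (by omega))
    omega
  have hsm : (small (Fin M × (Bool × Fin κ → ZMod 2)) (2 * l)).card ≤ 2 ^ (lam * (2 * l)) := by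
    refine (card_small_le _ _).trans ?_
    rw [pow_mul 2 lam (2 * l)]
    exact Nat.pow_le_pow_left hcV _
  have hs2 : 4 * (2 ^ μ * r * (small (Fin M × (Bool × Fin κ → ZMod 2)) (2 * l)).card) ≤
      2 ^ m := by
    calc 4 * (2 ^ μ * r * (small (Fin M × (Bool × Fin κ → ZMod 2)) (2 * l)).card) ≤
        4 * (2 ^ μ * 2 ^ lam * 2 ^ (lam * (2 * l))) := by gcongr
      _ = 2 ^ m := by rw [hm, pow_add, pow_add, pow_add]; ring
  obtain ⟨D', Ω, _, P, X, d1, d2, d2', d3, d4, d5, d5', d6⟩ := core_avg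
    (V := Fin M × (Bool × Fin κ → ZMod 2)) (W := Fin D → ZMod 2) (gr A) (l := l)
    (m := m) (R := R) (q := 4 ^ κ) (r := r) (s := 2 ^ μ) (M := M) (T := r) (by omega) hmpos
    hRpos hq1 le_rfl hrpos hs1 hs2 hW (fun w => by rw [card_gr]) (fun S hS => by
      have := hA S hS
      convert this)
    le_rfl (sig n A e)
  obtain ⟨P', e1, e2, e3⟩ := to_orders (inside n U) (inp (sig n A e) ∅) P X d3 d4 d5
    (fun ω j a ha => by
      obtain ⟨Z, hZ⟩ := d5' ω j
      rw [hZ, hinp Z a ha]) r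
  refine ⟨D', inp (sig n A e) ∅, P', d1, d2, ?_, e1, e2, fun f hf C hC hs => (d6 f (fun X => by
      rw [← padBits_gph, hf]
      exact clique_gph hDpos A e X hkk hk2) C hC hs).trans ?_⟩
  · intro x hx a ha
    obtain ⟨Z, hZ⟩ := d2' x hx
    rw [hZ, hinp Z a ha]
  have hr0 : (0:ℝ) < r := by exact_mod_cast hrpos
  have h5 := e3 C
  have h6 : 2 * (1 + ∑ ω, P ω * (C.changes (X ω) r : ℝ)) / (r:ℝ) ≤
      2 * (1 + ∑ π, P' π * (C.activity (inside n U) (inp (sig n A e) ∅) π : ℝ)) / r :=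
    div_le_div_of_nonneg_right (by linarith) hr0.le
  linarith

/-- a circuit is right with probability at most one -/
theorem agree_le_one {n : ℕ} {D : (Fin n → Bool) → ℝ} (hD : ∀ x, 0 ≤ D x) (h1 : ∑ x, D x = 1)
    (C : Net n) (f : (Fin n → Bool) → Prop) : C.agree D f ≤ 1 := by
  rw [← h1]
  exact agree_le hD C f

end Pool.Agent.V8H38.NA
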