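import Pool.Agent.V8H38.NA.Appr
import Pool.Agent.V8H38.NL.Core

/-!
# One scale of noise, for circuits with real-valued monotone gates
-/

set_option linter.unusedSectionVars false

namespace Pool.Agent.V8H38.NA

open Finset
open Pool.Agent.V8H38.NL (acc acc_mono NN NN_mono NN_const NN_add NN_smul NN_zero NN_succ
  NN_le_of_le NN_trans N ind ind_true ind_false ind_mono comparison
  ind_le ind_le_one ind_nonneg small cnt cnt_eq cnt_mono cnt_or cnt_false cnt_nonneg inp)

variable {V : Type} [Fintype V] [DecidableEq V]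

theorem vals_mono {n : ℕ} {x y : Fin n → Bool} (hxy : ∀ i, x i = true → y i = true) :
    ∀ L : List (Node n), (∀ g ∈ L, g.isAny = false) → (∀ g ∈ L, g.Mono) → ∀ k : ℕ,
      (vals x L).getD k 0 ≤ (vals y L).getD k 0 := by
  intro L
  induction L using List.reverseRecOn with
  | nil => intro _ _ k; simp [vals_nil]
  | append_singleton L g ih =>
    intro hL hM k
    have ih' := ih (fun g' hg' => hL g' (List.mem_append_left _ hg'))
      (fun g' hg' => hM g' (List.mem_append_left _ hg'))
    have hL2 : g.isAny = false := hL g (by simp)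
    have hM2 : g.Mono := hM g (by simp)
    rw [vals_append, vals_append]
    rcases lt_trichotomy k L.length with hi | hi | hi
    · rw [List.getD_append _ _ _ _ (by rw [vals_length]; omega),
        List.getD_append _ _ _ _ (by rw [vals_length]; omega)]
      exact ih' k
    · rw [List.getD_append_right _ _ _ _ (by rw [vals_length]; omega),
        List.getD_append_right _ _ _ _ (by rw [vals_length]; omega), vals_length, vals_length, hi,
        Nat.sub_self]
      simp only [List.getD_cons_zero]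
      cases g with
      | input j =>
        simp only [Node.eval]
        by_cases hj : x j = true
        · rw [if_pos hj, if_pos (hxy j hj)]
        · rw [if_neg hj]; split_ifs <;> norm_num
      | const c => simp [Node.eval]
      | sup c l =>
        simp only [Node.eval]
        rw [le_foldr_sup]
        rcases (le_foldr_sup (fun k => (vals x L).getD k 0) c l _).1 le_rfl with h | ⟨k', hk, h⟩
        · exact Or.inl h
        · exact Or.inr ⟨k', hk, h.trans (ih' k')⟩
      | gate φ a b => exact hM2 _ _ _ _ (ih' a) (ih' b)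
      | any l φ => simp [Node.isAny] at hL2
    · rw [List.getD_eq_default _ _ (by simp [vals_length]; omega),
        List.getD_eq_default _ _ (by simp [vals_length]; omega)]

/-- **One scale.** A circuit of monotone gates in which the bit of a watched node is one on
`x ∪ Γ w` for many `w` has such a bit on `x ∪ noise` with about half of this probability. -/
theorem one_scale {W : Type} [Fintype W] (Γ : W → Finset V) {l m R q s : ℕ} (hl : 1 ≤ l)
    (hm : 1 ≤ m) (hR1 : 1 ≤ R) (hR : 8 * l * R ≤ q)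
    (hΓ : ∀ S : Finset V, S.card ≤ 2 * l →
      (Finset.univ.filter fun w => S ⊆ Γ w).card * q ^ S.card ≤ Fintype.card W)
    {n : ℕ} (σ : Fin n → Bool ⊕ V) (L : List (Node n)) (hL : ∀ g ∈ L, g.isAny = false)
    (hM : ∀ g ∈ L, g.Mono) (hs : L.countP Node.isGate ≤ s) (U : Set ℕ) (x : Finset V) :
    cnt (fun w => ∃ k ∈ U, 0 < (vals (inp σ (x ∪ Γ w)) L).getD k 0) ≤
      (2 * NN (1 / (R:ℝ)) m (ind fun y => ∃ k ∈ U, 0 < (vals (inp σ y) L).getD k 0) x +
        s * ((1 / 2) ^ l + 2 * ((small V (2 * l)).card * (1 / 2) ^ m))) * Fintype.card W := by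
  classical
  set p : ℝ := 1 / (R:ℝ) with hp
  have hR0 : (0:ℝ) < R := by exact_mod_cast hR1
  have h0 : 0 < p := by positivity
  have h1 : p ≤ 1 := by
    rw [hp, div_le_one hR0]; exact_mod_cast hR1
  set g : Finset V → Prop := fun y => ∃ k ∈ U, 0 < (vals (inp σ y) L).getD k 0 with hg
  have hW0 : (0:ℝ) ≤ Fintype.card W := Nat.cast_nonneg _
  have hs0 : (0:ℝ) ≤ s := Nat.cast_nonneg _
  set κ := 4 * l * R with hκdef
  have hκ : 0 < κ := by positivity
  have hk : 2 * ((2 * l : ℕ) : ℝ) ≤ κ * p := by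
    rw [hκdef, hp]
    push_cast
    rw [mul_assoc, mul_one_div, div_self hR0.ne']
    linarith
  have hq : 2 * κ ≤ q := by
    rw [hκdef]
    calc 2 * (4 * l * R) = 8 * l * R := by ring
      _ ≤ q := hR
  have hq0 : 0 < q := lt_of_lt_of_le (by positivity) hR
  have hΓ' : ∀ S : Finset V, S.card ≤ 2 * l →
      cnt (fun w => S ⊆ Γ w) * q ^ S.card ≤ Fintype.card W := by
    intro S hS
    rw [cnt_eq]
    exact_mod_cast hΓ S hS
  obtain ⟨A, hA1, hA2, hA3, hA4⟩ := circ_appr Γ h0 h1 (m := m) hl hκ hk hq hΓ' σ x L hL hM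
  let K : Finset (Finset V) := Finset.univ.filter fun S =>
    ∃ k ∈ U, ∃ r : ℝ, 0 < r ∧ S ∈ A.getD k dflt r
  have hKmem : ∀ S, S ∈ K ↔ ∃ k ∈ U, ∃ r : ℝ, 0 < r ∧ S ∈ A.getD k dflt r := by
    intro S
    simp only [K, Finset.mem_filter, Finset.mem_univ, true_and]
  have hKl : ∀ S ∈ K, S.card ≤ l := by
    intro S hS
    rw [hKmem] at hS
    obtain ⟨k, _, r, _, h⟩ := hS
    exact hA2 k r S h
  have hcomp := comparison Γ h0 h1 (l := l) (q := q) hq0 (by
    have : (8:ℝ) * l * R ≤ q := by exact_mod_cast hR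
    rw [hp, mul_one_div, le_div_iff₀ hR0]
    have : (0:ℝ) ≤ l * R := by positivity
    linarith) (fun S hS => hΓ S (by omega)) (G := K) hKl
  rw [← cnt_eq] at hcomp
  have hsz : (L.countP Node.isGate : ℝ) ≤ s := by exact_mod_cast hs
  -- the planted side
  have e1 : cnt (fun w => g (x ∪ Γ w)) ≤ cnt (fun w => badP σ x L A (Γ w) ∨ acc K (Γ w)) := by
    refine cnt_mono fun w hw => ?_
    obtain ⟨k, hk, h2⟩ := hw
    by_cases hacc : acc (A.getD k dflt ((vals (inp σ (x ∪ Γ w)) L).getD k 0)) (Γ w)
    · right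
      obtain ⟨S, hS, hSw⟩ := hacc
      exact ⟨S, (hKmem S).2 ⟨k, hk, _, h2, hS⟩, hSw⟩
    · exact Or.inl ⟨k, _, le_rfl, hacc⟩
  have e2 := e1.trans (cnt_or _ _)
  -- the noise side
  have e3 : N p (ind (acc K)) ∅ ≤ NN p m (ind (acc K)) ∅ := by
    have := NN_le_of_le h0.le h1 hm (ind_mono fun y z hyz h => acc_mono (F := K) hyz h) ∅
    rwa [show NN p 1 (ind (acc K)) = N p (ind (acc K)) from by rw [NN_succ, NN_zero]] at this
  have e4 : NN p m (ind (acc K)) ∅ ≤
      NN p m (fun Z => ind (badN σ x L A) Z + ind g (x ∪ Z)) ∅ := by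
    refine NN_mono h0.le h1 m fun Z _ => ?_
    by_cases hacc : acc K Z
    · rw [ind_true hacc]
      by_cases hgZ : g (x ∪ Z)
      · rw [ind_true hgZ]
        have := ind_nonneg (badN σ x L A) Z
        linarith
      · have hb : badN σ x L A Z := by
          obtain ⟨S, hS, hSZ⟩ := hacc
          rw [hKmem] at hS
          obtain ⟨k, hk, r, hr, hS⟩ := hS
          refine ⟨k, r, ⟨S, hS, hSZ⟩, ?_⟩
          by_contra h
          push Not at h
          exact hgZ ⟨k, hk, lt_of_lt_of_le hr h⟩
        rw [ind_true hb]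
        have := ind_nonneg g (x ∪ Z)
        linarith
    · rw [ind_false hacc]
      have := ind_nonneg g (x ∪ Z)
      have := ind_nonneg (badN σ x L A) Z
      linarith
  rw [NN_add] at e4
  have e5 := NN_trans p m (ind g) x ∅
  rw [Finset.union_empty] at e5
  simp only [e5] at e4
  set n₀ : ℝ := (((small V (2 * l)).card : ℕ) : ℝ) with hn₀
  have hn₀0 : 0 ≤ n₀ := Nat.cast_nonneg _
  have e6 : NN p m (ind (badN σ x L A)) ∅ ≤ s * (n₀ * (1 / 2) ^ m) :=
    hA3.trans (mul_le_mul_of_nonneg_right hsz (by positivity))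
  have e7 : cnt (fun w => badP σ x L A (Γ w)) ≤ s * ((1 / 2) ^ l * Fintype.card W) :=
    hA4.trans (mul_le_mul_of_nonneg_right hsz (by positivity))
  have e8 : N p (ind (acc K)) ∅ ≤ s * (n₀ * (1 / 2) ^ m) + NN p m (ind g) x := by linarith
  have e9 : cnt (fun w => acc K (Γ w)) ≤
      2 * (s * (n₀ * (1 / 2) ^ m) + NN p m (ind g) x) * Fintype.card W := by
    refine hcomp.trans ?_
    gcongr
  calc cnt (fun w => g (x ∪ Γ w))
      ≤ s * ((1 / 2) ^ l * Fintype.card W) +
        2 * (s * (n₀ * (1 / 2) ^ m) + NN p m (ind g) x) * Fintype.card W := by linarith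
    _ = _ := by ring

end Pool.Agent.V8H38.NA
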