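import Pool.Agent.V8H38.NL.Avg

/-!
# Approximation of gates with real values: chains of families
-/

set_option linter.unusedSectionVars false

namespace Pool.Agent.V8H38.NA

open Finset Pool.Agent.V8H38.NL

variable {V : Type} [Fintype V] [DecidableEq V]

theorem exists_closed' {p : ℝ} (h0 : 0 ≤ p) (h1 : p ≤ 1) (m c : ℕ) {δ : ℝ} :
    ∀ (j : ℕ) (F : Finset (Finset V)), (small V c \ F).card ≤ j →
      ∃ G : Finset (Finset V), F ⊆ G ∧ (∀ S ∈ G, S ∈ F ∨ S.card ≤ c) ∧ Closed p m c δ G ∧
        NN p m (ind (fun y => acc G y ∧ ¬ acc F y)) ∅ ≤ (G \ F).card * δ := by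
  intro j
  induction j with
  | zero =>
    intro F hF
    refine ⟨F, Finset.Subset.refl _, fun S hS => Or.inl hS, ?_, ?_⟩
    · intro A hA _
      have : A ∈ F := by
        by_contra h
        have : A ∈ small V c \ F := by simp [small, hA, h]
        have := Finset.card_pos.2 ⟨A, this⟩
        omega
      exact ⟨A, this, Finset.Subset.refl _⟩
    · have : (ind fun y => acc F y ∧ ¬ acc F y) = fun _ : Finset V => (0:ℝ) := by
        funext y; exact ind_false (P := fun y => acc F y ∧ ¬ acc F y) (by tauto)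
      rw [this, NN_const]; simp
  | succ j ih =>
    intro F hF
    by_cases hcl : Closed p m c δ F
    · refine ⟨F, Finset.Subset.refl _, fun S hS => Or.inl hS, hcl, ?_⟩
      have : (ind fun y => acc F y ∧ ¬ acc F y) = fun _ : Finset V => (0:ℝ) := by
        funext y; exact ind_false (P := fun y => acc F y ∧ ¬ acc F y) (by tauto)
      rw [this, NN_const]; simp
    · unfold Closed at hcl
      push Not at hcl
      obtain ⟨A, hA, hsmall, hnot⟩ := hcl
      have hAF : A ∉ F := fun h => hnot ⟨A, h, Finset.Subset.refl _⟩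
      have hcard : (small V c \ insert A F).card ≤ j := by
        have h2 : (small V c \ insert A F) = (small V c \ F).erase A := by
          ext S; simp only [Finset.mem_sdiff, Finset.mem_insert, Finset.mem_erase]; tauto
        rw [h2, Finset.card_erase_of_mem (by simp [small, hA, hAF])]
        omega
      obtain ⟨G, hG1, hG2, hG3, hG4⟩ := ih (insert A F) hcard
      refine ⟨G, (Finset.subset_insert _ _).trans hG1, ?_, hG3, ?_⟩
      · intro S hS
        rcases hG2 S hS with h | h
        · rcases Finset.mem_insert.1 h with h | h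
          · right; rw [h]; exact hA
          · left; exact h
        · right; exact h
      · have e1 : NN p m (ind fun y => acc G y ∧ ¬ acc F y) ∅ ≤
            NN p m (fun y => ind (fun y => acc G y ∧ ¬ acc (insert A F) y) y +
              ind (fun y => ¬ acc F y) (A ∪ y)) ∅ := by
          refine NN_mono h0 h1 m fun y _ => ?_
          by_cases hy : acc G y ∧ ¬ acc F y
          · rw [ind_true hy]
            by_cases hy2 : acc (insert A F) y
            · have hAy : A ⊆ y := by
                obtain ⟨S, hS, hSy⟩ := hy2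
                rcases Finset.mem_insert.1 hS with h | h
                · rw [← h]; exact hSy
                · exact absurd ⟨S, h, hSy⟩ hy.2
              rw [Finset.union_eq_right.2 hAy, ind_true (P := fun y => ¬ acc F y) hy.2]
              have := ind_nonneg (fun y => acc G y ∧ ¬ acc (insert A F) y) y
              linarith
            · rw [ind_true (P := fun y => acc G y ∧ ¬ acc (insert A F) y) ⟨hy.1, hy2⟩]
              have := ind_nonneg (fun y => ¬ acc F y) (A ∪ y)
              linarith
          · rw [ind_false hy]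
            have := ind_nonneg (fun y => ¬ acc F y) (A ∪ y)
            have := ind_nonneg (fun y => acc G y ∧ ¬ acc (insert A F) y) y
            linarith
        rw [NN_add] at e1
        have e2 := NN_trans p m (ind (fun y => ¬ acc F y)) A ∅
        rw [Finset.union_empty] at e2
        simp only [e2] at e1
        have e3 : (G \ F).card = (G \ insert A F).card + 1 := by
          have hAG : A ∈ G := hG1 (Finset.mem_insert_self _ _)
          have h2 : (G \ insert A F) = (G \ F).erase A := by
            ext S; simp only [Finset.mem_sdiff, Finset.mem_insert, Finset.mem_erase]; tauto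
          rw [h2, Finset.card_erase_of_mem (by simp [hAG, hAF])]
          have : 0 < (G \ F).card := Finset.card_pos.2 ⟨A, by simp [hAG, hAF]⟩
          omega
        rw [e3]
        push_cast
        linarith

theorem chain_sub {F : ℕ → Finset (Finset V)} (hF : ∀ j, F j ⊆ F (j + 1)) {i j : ℕ}
    (h : i ≤ j) : F i ⊆ F j := by
  induction j, h using Nat.le_induction with
  | base => exact Finset.Subset.refl _
  | succ j _ ih => exact ih.trans (hF j)

/-- closures of a chain of families -/
theorem exists_chain_closed {p : ℝ} (h0 : 0 ≤ p) (h1 : p ≤ 1) (m c : ℕ) {δ : ℝ} (hδ : 0 ≤ δ)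
    (F : ℕ → Finset (Finset V)) (hF : ∀ j, F j ⊆ F (j + 1)) :
    ∃ K : ℕ → Finset (Finset V), (∀ j, F j ⊆ K j) ∧ (∀ j, K j ⊆ K (j + 1)) ∧
      (∀ j, ∀ S ∈ K j, S ∈ F j ∨ S.card ≤ c) ∧ (∀ j, Closed p m c δ (K j)) ∧
      ∀ T : ℕ, NN p m (ind (fun y => ∃ j < T, acc (K j) y ∧ ¬ acc (F j) y)) ∅ ≤
        (small V c).card * δ := by
  classical
  have hex : ∀ X : Finset (Finset V), ∃ G : Finset (Finset V), X ⊆ G ∧
      (∀ S ∈ G, S ∈ X ∨ S.card ≤ c) ∧ Closed p m c δ G ∧
        NN p m (ind (fun y => acc G y ∧ ¬ acc X y)) ∅ ≤ (G \ X).card * δ := fun X =>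
    exists_closed' h0 h1 m c _ X le_rfl
  choose cl c1 c2 c3 c4 using hex
  let K : ℕ → Finset (Finset V) := fun j => Nat.rec (cl (F 0)) (fun i Y => cl (F (i + 1) ∪ Y)) j
  let X : ℕ → Finset (Finset V) := fun j => Nat.casesOn j (F 0) fun i => F (i + 1) ∪ K i
  have hK : ∀ j, K j = cl (X j) := fun j => by cases j <;> rfl
  have hFX : ∀ j, F j ⊆ X j := fun j => by
    cases j with
    | zero => exact Finset.Subset.refl _
    | succ j => exact Finset.subset_union_left
  have hXK : ∀ j, X j ⊆ K j := fun j => by rw [hK]; exact c1 _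
  have hKK : ∀ j, K j ⊆ K (j + 1) := fun j =>
    (Finset.subset_union_right (s₁ := F (j + 1)) (s₂ := K j)).trans (hXK (j + 1))
  have hKc : ∀ j, ∀ S ∈ K j, S ∈ F j ∨ S.card ≤ c := by
    intro j
    induction j with
    | zero =>
      intro S hS
      exact c2 _ S hS
    | succ j ih =>
      intro S hS
      have hS' : S ∈ cl (F (j + 1) ∪ K j) := hS
      rcases c2 _ S hS' with h | h
      · rcases Finset.mem_union.1 h with h | h
        · exact Or.inl h
        · rcases ih S h with h | h
          · exact Or.inl (hF j h)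
          · exact Or.inr h
      · exact Or.inr h
  refine ⟨K, fun j => (hFX j).trans (hXK j), hKK, hKc, fun j => by rw [hK]; exact c3 _, ?_⟩
  intro T
  have e1 : NN p m (ind (fun y => ∃ j < T, acc (K j) y ∧ ¬ acc (F j) y)) ∅ ≤
      NN p m (fun y => ∑ j ∈ Finset.range T, ind (fun y => acc (K j) y ∧ ¬ acc (X j) y) y) ∅ := by
    refine NN_mono h0 h1 m fun y _ => ?_
    by_cases hy : ∃ j < T, acc (K j) y ∧ ¬ acc (F j) y
    · rw [ind_true hy]
      obtain ⟨j, hj, hj1, hj2⟩ := hy
      have hex2 : ∃ i, acc (K i) y := ⟨j, hj1⟩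
      set i := Nat.find hex2 with hi
      have hi1 : acc (K i) y := Nat.find_spec hex2
      have hij : i ≤ j := Nat.find_min' hex2 hj1
      have hi2 : ¬ acc (X i) y := by
        intro h
        rcases hcase : i with _ | i'
        · rw [hcase] at h
          exact hj2 (acc_sub (chain_sub hF (Nat.zero_le j)) h)
        · rw [hcase] at h
          have h' : acc (F (i' + 1) ∪ K i') y := h
          rcases acc_union.1 h' with h | h
          · exact hj2 (acc_sub (chain_sub hF (by omega)) h)
          · exact Nat.find_min hex2 (m := i') (by omega) h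
      calc (1:ℝ) = ind (fun y => acc (K i) y ∧ ¬ acc (X i) y) y :=
            (ind_true (P := fun y => acc (K i) y ∧ ¬ acc (X i) y) ⟨hi1, hi2⟩).symm
        _ ≤ _ := Finset.single_le_sum (f := fun j => ind (fun y => acc (K j) y ∧ ¬ acc (X j) y) y)
            (fun j _ => ind_nonneg _ _) (Finset.mem_range.2 (by omega))
    · rw [ind_false hy]
      exact Finset.sum_nonneg fun j _ => ind_nonneg _ _
  rw [NN_fsum] at e1
  refine e1.trans ?_
  have e2 : ∑ j ∈ Finset.range T, NN p m (ind (fun y => acc (K j) y ∧ ¬ acc (X j) y)) ∅ ≤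
      ∑ j ∈ Finset.range T, ((K j \ X j).card : ℝ) * δ :=
    Finset.sum_le_sum fun j _ => by
      have := c4 (X j)
      rwa [← hK] at this
  refine e2.trans ?_
  rw [← Finset.sum_mul]
  refine mul_le_mul_of_nonneg_right ?_ hδ
  have e3 : ∑ j ∈ Finset.range T, (K j \ X j).card =
      ((Finset.range T).biUnion fun j => K j \ X j).card := by
    rw [Finset.card_biUnion]
    intro i _ j _ hij
    have key : ∀ a b : ℕ, a < b → Disjoint (K a \ X a) (K b \ X b) := by
      intro a b hab
      rw [Finset.disjoint_left]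
      intro S hS hS'
      rw [Finset.mem_sdiff] at hS hS'
      apply hS'.2
      cases b with
      | zero => omega
      | succ b =>
        exact Finset.mem_union_right _ (chain_sub hKK (by omega) hS.1)
    rcases Nat.lt_or_gt_of_ne hij with h | h
    · exact key i j h
    · exact (key j i h).symm
  have e4 : ((Finset.range T).biUnion fun j => K j \ X j) ⊆ small V c := by
    intro S hS
    obtain ⟨j, _, hj⟩ := Finset.mem_biUnion.1 hS
    rw [Finset.mem_sdiff] at hj
    have h2 := hj.1
    rw [hK] at h2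
    rcases c2 _ S h2 with h | h
    · exact absurd h hj.2
    · simp [small, h]
  have e5 := Finset.card_le_card e4
  rw [← e3] at e5
  exact_mod_cast e5

/-- the sets of size `k` which are minimal when they are accepted for the first time -/
noncomputable def born (K : ℕ → Finset (Finset V)) (k : ℕ) : Finset (Finset V) :=
  open Classical in
  Finset.univ.filter fun S => S.card = k ∧ ∃ i, S ∈ mins (K i) ∧ ∀ i' < i, ¬ acc (K i') S

theorem card_born_le {p : ℝ} (h0 : 0 < p) (h1 : p ≤ 1) {m c κ : ℕ} (hκ : 0 < κ)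
    (hk : 2 * (c : ℝ) ≤ κ * p) {K : ℕ → Finset (Finset V)} (hKK : ∀ j, K j ⊆ K (j + 1))
    (hcl : ∀ j, Closed p m c ((1 / 2) ^ m) (K j)) {k : ℕ} (hkc : k ≤ c) :
    (born K k).card ≤ κ ^ k := by
  classical
  by_contra hbig
  push Not at hbig
  have hmem : ∀ S, S ∈ born K k ↔ S.card = k ∧ ∃ i, S ∈ mins (K i) ∧ ∀ i' < i, ¬ acc (K i') S := by
    intro S
    unfold born
    rw [Finset.mem_filter]
    simp
  have hF : ∀ S ∈ born K k, S.card = k := fun S hS => ((hmem S).1 hS).1
  obtain ⟨A, hA, hne, hlink⟩ := exists_spread_link hκ hF hbig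
  have hk2 : 2 * (k : ℝ) ≤ κ * p := by
    have : (k : ℝ) ≤ c := by exact_mod_cast hkc
    linarith
  set L := (born K k).filter fun S => A ⊆ S with hL
  have hLk : ∀ S ∈ L, S.card = k := fun S hS => hF S (Finset.mem_filter.1 hS).1
  have hfil : ∀ B : Finset V, (L.filter fun S => A ∪ B ⊆ S) =
      (born K k).filter fun S => A ∪ B ⊆ S := by
    intro B
    rw [hL, Finset.filter_filter]
    refine Finset.filter_congr fun S _ => ?_
    constructor
    · exact fun h => h.2
    · exact fun h => ⟨Finset.subset_union_left.trans h, h⟩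
  have hfil0 : (L.filter fun S => A ⊆ S) = L := by
    rw [Finset.filter_eq_self]
    exact fun S hS => (Finset.mem_filter.1 hS).2
  have hb := boost h0 h1 hκ hLk hA (by rw [hfil0]; exact hne) (by
    intro B hAB
    rw [hfil, hfil0]
    exact hlink B hAB) hk2 m (x := A) (Finset.Subset.refl _)
  -- the last birth
  have hidx : ∀ S : Finset V, ∃ i, S ∈ L → S ∈ mins (K i) ∧ ∀ i' < i, ¬ acc (K i') S := by
    intro S
    by_cases hS : S ∈ L
    · obtain ⟨i, hi⟩ := ((hmem S).1 (Finset.mem_filter.1 hS).1).2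
      exact ⟨i, fun _ => hi⟩
    · exact ⟨0, fun h => absurd h hS⟩
  choose idx hidx using hidx
  obtain ⟨S₀, hS₀, hmax⟩ := Finset.exists_max_image L idx hne
  have hsub : L ⊆ K (idx S₀) := by
    intro S hS
    have h2 := (hidx S hS).1
    exact chain_sub hKK (hmax S hS) (Finset.mem_filter.1 h2).1
  have hacc : acc (K (idx S₀)) A := by
    refine hcl _ A (by omega) ?_
    calc NN p m (ind fun y => ¬ acc (K (idx S₀)) y) A ≤ NN p m (ind fun y => ¬ acc L y) A := by
          refine NN_mono h0.le h1 m fun y _ => ind_le fun h h' => h ?_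
          exact acc_sub hsub h'
      _ ≤ (1 / 2) ^ m * ind (fun y => ¬ acc L y) A := hb
      _ ≤ (1 / 2) ^ m * 1 := by
          refine mul_le_mul_of_nonneg_left (ind_le_one _ _) (by positivity)
      _ = _ := mul_one _
  obtain ⟨T, hT, hTA⟩ := hacc
  have hS1 := (hidx S₀ hS₀).1
  have hS3 : A ⊆ S₀ := (Finset.mem_filter.1 hS₀).2
  unfold mins at hS1
  rw [Finset.mem_filter] at hS1
  have := hS1.2 T hT (hTA.trans hS3)
  rw [this] at hTA
  have := Finset.card_le_card hTA
  rw [hLk S₀ hS₀] at this
  omega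

/-- **Approximation of a gate with many thresholds.** -/
theorem gate_chain {W : Type} [Fintype W] (Γ : W → Finset V) {p : ℝ} (h0 : 0 < p) (h1 : p ≤ 1)
    {l m κ q : ℕ} (hκ : 0 < κ) (hk : 2 * ((2 * l : ℕ) : ℝ) ≤ κ * p) (hq : 2 * κ ≤ q)
    (hΓ : ∀ S : Finset V, S.card ≤ 2 * l → cnt (fun w => S ⊆ Γ w) * q ^ S.card ≤ Fintype.card W)
    (F : ℕ → Finset (Finset V)) (hmono : ∀ j, F j ⊆ F (j + 1))
    (hF : ∀ j, ∀ S ∈ F j, S.card ≤ 2 * l) (T : ℕ) :
    ∃ G : ℕ → Finset (Finset V), (∀ j, ∀ S ∈ G j, S.card ≤ l) ∧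
      NN p m (ind (fun y => ∃ j < T, acc (G j) y ∧ ¬ acc (F j) y)) ∅ ≤
        (small V (2 * l)).card * (1 / 2) ^ m ∧
      cnt (fun w => ∃ j, acc (F j) (Γ w) ∧ ¬ acc (G j) (Γ w)) ≤
        (1 / 2) ^ l * Fintype.card W := by
  classical
  obtain ⟨K, hK1, hKK, hK2, hK3, hK4⟩ := exists_chain_closed h0.le h1 m (2 * l)
    (δ := (1 / 2) ^ m) (by positivity) F hmono
  have hK5 : ∀ j, ∀ S ∈ K j, S.card ≤ 2 * l := fun j S hS => (hK2 j S hS).elim (hF j S) id
  refine ⟨fun j => (mins (K j)).filter fun S => S.card ≤ l,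
    fun j S hS => (Finset.mem_filter.1 hS).2, ?_, ?_⟩
  · refine le_trans (NN_mono h0.le h1 m fun y _ => ind_le ?_) (hK4 T)
    rintro ⟨j, hj, h2, h3⟩
    exact ⟨j, hj, acc_sub ((Finset.filter_subset _ _).trans (Finset.filter_subset _ _)) h2, h3⟩
  · have hW : (0:ℝ) ≤ Fintype.card W := Nat.cast_nonneg _
    have hq0 : (0:ℝ) < q := by
      have : 0 < q := by omega
      exact_mod_cast this
    -- union bound over the large born sets
    have e1 : cnt (fun w => ∃ j, acc (F j) (Γ w) ∧
        ¬ acc ((mins (K j)).filter fun S => S.card ≤ l) (Γ w)) ≤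
        ∑ k ∈ Finset.Ioc l (2 * l), ∑ S ∈ born K k, cnt (fun w => S ⊆ Γ w) := by
      simp only [cnt_eq]
      have : (Finset.univ.filter fun w => ∃ j, acc (F j) (Γ w) ∧
          ¬ acc ((mins (K j)).filter fun S => S.card ≤ l) (Γ w)) ⊆
          (Finset.Ioc l (2 * l)).biUnion fun k => (born K k).biUnion
            fun S => Finset.univ.filter fun w => S ⊆ Γ w := by
        intro w hw
        rw [Finset.mem_filter] at hw
        obtain ⟨-, j, hw1, hw2⟩ := hw
        have hex : ∃ i, acc (K i) (Γ w) := ⟨j, acc_sub (hK1 j) hw1⟩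
        set i := Nat.find hex with hi
        have hij : i ≤ j := Nat.find_min' hex (acc_sub (hK1 j) hw1)
        obtain ⟨S, hS, hSw⟩ := exists_min (Nat.find_spec hex)
        rw [← hi] at hS
        have hSK : S ∈ K i := (Finset.mem_filter.1 hS).1
        have hSl : l < S.card := by
          by_contra h
          apply hw2
          obtain ⟨S', hS', hsub⟩ := exists_min (F := K j) (X := S)
            ⟨S, chain_sub hKK hij hSK, Finset.Subset.refl _⟩
          refine ⟨S', ?_, hsub.trans hSw⟩
          rw [Finset.mem_filter]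
          exact ⟨hS', (Finset.card_le_card hsub).trans (by omega)⟩
        rw [Finset.mem_biUnion]
        refine ⟨S.card, by rw [Finset.mem_Ioc]; exact ⟨hSl, hK5 i S hSK⟩, ?_⟩
        rw [Finset.mem_biUnion]
        refine ⟨S, ?_, ?_⟩
        · unfold born
          rw [Finset.mem_filter]
          refine ⟨Finset.mem_univ _, rfl, i, hS, fun i' hi' hacc => ?_⟩
          exact Nat.find_min hex hi' (acc_mono hSw hacc)
        · rw [Finset.mem_filter]
          exact ⟨Finset.mem_univ _, hSw⟩
      have h2 := (Finset.card_le_card this).trans Finset.card_biUnion_le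
      have h3 := h2.trans (Finset.sum_le_sum fun k _ => Finset.card_biUnion_le)
      exact_mod_cast h3
    refine e1.trans ?_
    have e2 : ∀ k ∈ Finset.Ioc l (2 * l), ∑ S ∈ born K k,
        cnt (fun w => S ⊆ Γ w) ≤ (1 / 2) ^ k * Fintype.card W := by
      intro k hk'
      rw [Finset.mem_Ioc] at hk'
      have e3 : ∀ S ∈ born K k, cnt (fun w => S ⊆ Γ w) ≤
          Fintype.card W / q ^ k := by
        intro S hS
        have hSk : S.card = k := by
          unfold born at hS
          rw [Finset.mem_filter] at hS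
          exact hS.2.1
        rw [le_div_iff₀ (by positivity), ← hSk]
        exact hΓ S (by omega)
      refine (Finset.sum_le_sum e3).trans ?_
      rw [Finset.sum_const, nsmul_eq_mul]
      have e4 : ((born K k).card : ℝ) ≤ (κ:ℝ) ^ k := by
        exact_mod_cast card_born_le h0 h1 hκ hk hKK hK3 (k := k) (by omega)
      have e5 : (κ:ℝ) ≤ q / 2 := by
        have : (2:ℝ) * κ ≤ q := by exact_mod_cast hq
        linarith
      calc ((born K k).card : ℝ) * (Fintype.card W / q ^ k)
          ≤ (q / 2) ^ k * (Fintype.card W / q ^ k) := by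
            gcongr
            exact e4.trans (by gcongr)
        _ = (1 / 2) ^ k * Fintype.card W := by
            rw [div_pow, one_div, inv_pow]
            field_simp
    refine (Finset.sum_le_sum e2).trans ?_
    rw [← Finset.sum_mul]
    exact mul_le_mul_of_nonneg_right (sum_half_Ioc _ _) hW

/-- **Approximation of a gate with real values.** -/
theorem gate_real {W : Type} [Fintype W] (Γ : W → Finset V) {p : ℝ} (h0 : 0 < p) (h1 : p ≤ 1)
    {l m κ q : ℕ} (hκ : 0 < κ) (hk : 2 * ((2 * l : ℕ) : ℝ) ≤ κ * p) (hq : 2 * κ ≤ q)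
    (hΓ : ∀ S : Finset V, S.card ≤ 2 * l → cnt (fun w => S ⊆ Γ w) * q ^ S.card ≤ Fintype.card W)
    (F : ℝ → Finset (Finset V)) (hanti : ∀ r r', r ≤ r' → F r' ⊆ F r)
    (hF : ∀ r, ∀ S ∈ F r, S.card ≤ 2 * l) :
    ∃ G : ℝ → Finset (Finset V), (∀ r, ∀ S ∈ G r, S.card ≤ l) ∧
      NN p m (ind (fun y => ∃ r, acc (G r) y ∧ ¬ acc (F r) y)) ∅ ≤
        (small V (2 * l)).card * (1 / 2) ^ m ∧
      cnt (fun w => ∃ r, acc (F r) (Γ w) ∧ ¬ acc (G r) (Γ w)) ≤
        (1 / 2) ^ l * Fintype.card W := by
  classical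
  let F' : ℕ → Finset (Finset V) := fun j => Finset.univ.filter fun S => ∃ r, (F r).card ≤ j ∧ S ∈ F r
  have hmem : ∀ j S, S ∈ F' j ↔ ∃ r, (F r).card ≤ j ∧ S ∈ F r := by
    intro j S
    simp only [F', Finset.mem_filter, Finset.mem_univ, true_and]
  have hmono : ∀ j, F' j ⊆ F' (j + 1) := by
    intro j S hS
    rw [hmem] at hS ⊢
    obtain ⟨r, h2, h3⟩ := hS
    exact ⟨r, by omega, h3⟩
  have hF' : ∀ j, ∀ S ∈ F' j, S.card ≤ 2 * l := by
    intro j S hS
    rw [hmem] at hS
    obtain ⟨r, _, h3⟩ := hS
    exact hF r S h3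
  have heq : ∀ r, F' (F r).card = F r := by
    intro r
    ext S
    rw [hmem]
    constructor
    · rintro ⟨r', h2, h3⟩
      rcases le_total r r' with h | h
      · exact hanti r r' h h3
      · have h4 := hanti r' r h
        have h5 := Finset.eq_of_subset_of_card_le h4 h2
        rw [h5]; exact h3
    · intro h
      exact ⟨r, le_rfl, h⟩
  obtain ⟨G, hG1, hG2, hG3⟩ := gate_chain Γ h0 h1 (m := m) hκ hk hq hΓ F' hmono hF'
    (Fintype.card (Finset V) + 1)
  refine ⟨fun r => G (F r).card, fun r => hG1 _, ?_, ?_⟩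
  · refine le_trans (NN_mono h0.le h1 m fun y _ => ind_le ?_) hG2
    rintro ⟨r, h2, h3⟩
    refine ⟨(F r).card, ?_, h2, by rw [heq]; exact h3⟩
    exact Nat.lt_succ_of_le (Finset.card_le_univ _)
  · refine le_trans (cnt_mono ?_) hG3
    rintro w ⟨r, h2, h3⟩
    exact ⟨(F r).card, by rw [heq]; exact h2, h3⟩

end Pool.Agent.V8H38.NA
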