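import Pool.Agent.V8H38.NA.Layers

/-!
# Small circuits with real-valued monotone gates and few NOT gates for every function
-/

set_option linter.unusedSectionVars false

namespace Pool.Agent.V8H38.NA

open Finset

variable {n : ℕ}

/-- the node number `k` of the list computes the function `F` -/
def Has (L : List (Node n)) (k : ℕ) (F : (Fin n → Bool) → ℝ) : Prop :=
  k < L.length ∧ ∀ x, (vals x L).getD k 0 = F x

/-- a list with `s` real gates (all of them monotone) and `t` NOT gates -/
def Good (L : List (Node n)) (s t : ℕ) : Prop :=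
  L.countP Node.isGate = s ∧ L.countP Node.isAny = t ∧ (∀ g ∈ L, g.Mono) ∧
    ∀ g ∈ L, g.isAny = true → ∃ a, g = Node.not a

/-- an extension of a list -/
def Ext (L L' : List (Node n)) : Prop := ∀ k F, Has L k F → Has L' k F

theorem Ext.trans {L L' L'' : List (Node n)} (h : Ext L L') (h' : Ext L' L'') : Ext L L'' :=
  fun k F hk => h' k F (h k F hk)

theorem ext_append (L : List (Node n)) (g : Node n) : Ext L (L ++ [g]) := by
  rintro k F ⟨h1, h2⟩
  refine ⟨by rw [List.length_append]; omega, fun x => ?_⟩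
  rw [vals_getD_append _ _ _ _ h1, h2]

theorem has_new (L : List (Node n)) (g : Node n) (F : (Fin n → Bool) → ℝ)
    (hF : ∀ x, g.eval x (fun k => (vals x L).getD k 0) = F x) : Has (L ++ [g]) L.length F := by
  refine ⟨by simp, fun x => ?_⟩
  rw [vals_append, List.getD_append_right _ _ _ _ (by rw [vals_length]), vals_length]
  simp only [Nat.sub_self, List.getD_cons_zero]
  exact hF x

theorem add_gate {L : List (Node n)} {s t a b : ℕ} {F G : (Fin n → Bool) → ℝ} (hL : Good L s t)
    (ha : Has L a F) (hb : Has L b G) (φ : ℝ → ℝ → ℝ)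
    (hφ : ∀ s s' t t' : ℝ, s ≤ s' → t ≤ t' → φ s t ≤ φ s' t') :
    ∃ L' k, Good L' (s + 1) t ∧ Ext L L' ∧ Has L' k (fun x => φ (F x) (G x)) := by
  obtain ⟨h1, h2, h3, h4⟩ := hL
  refine ⟨L ++ [Node.gate φ a b], L.length, ⟨?_, ?_, ?_, ?_⟩, ext_append _ _, has_new _ _ _ ?_⟩
  · simp [List.countP_append, h1, Node.isGate]
  · simp [List.countP_append, h2, Node.isAny]
  · intro g hg
    rcases List.mem_append.1 hg with h | h
    · exact h3 g h
    · rw [List.mem_singleton] at h
      subst h
      exact hφ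
  · intro g hg
    rcases List.mem_append.1 hg with h | h
    · exact h4 g h
    · rw [List.mem_singleton] at h
      subst h
      intro h
      simp [Node.isAny] at h
  · intro x
    simp only [Node.eval]
    rw [ha.2, hb.2]

theorem add_not {L : List (Node n)} {s t a : ℕ} {F : (Fin n → Bool) → ℝ} (hL : Good L s t)
    (ha : Has L a F) :
    ∃ L' k, Good L' s (t + 1) ∧ Ext L L' ∧ Has L' k (fun x => if 0 < F x then 0 else 1) := by
  obtain ⟨h1, h2, h3, h4⟩ := hL
  refine ⟨L ++ [Node.not a], L.length, ⟨?_, ?_, ?_, ?_⟩, ext_append _ _, has_new _ _ _ ?_⟩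
  · simp [List.countP_append, h1, Node.isGate, Node.not]
  · simp [List.countP_append, h2, Node.isAny, Node.not]
  · intro g hg
    rcases List.mem_append.1 hg with h | h
    · exact h3 g h
    · rw [List.mem_singleton] at h
      subst h
      trivial
  · intro g hg
    rcases List.mem_append.1 hg with h | h
    · exact h4 g h
    · rw [List.mem_singleton] at h
      subst h
      exact fun _ => ⟨a, rfl⟩
  · intro x
    simp only [Node.not, Node.eval, List.map_cons, List.map_nil, List.getD_cons_zero]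
    have e : (0 < (vals x L).getD a 0) ↔ 0 < F x := by rw [ha.2]
    by_cases h : 0 < F x
    · rw [if_pos h, decide_eq_true (e.2 h)]
      simp
    · rw [if_neg h, decide_eq_false (fun h' => h (e.1 h'))]
      simp

theorem add_leaf {L : List (Node n)} {s t : ℕ} (hL : Good L s t) (g : Node n)
    (h : (∃ i, g = Node.input i) ∨ ∃ c, g = Node.const c) (F : (Fin n → Bool) → ℝ)
    (hF : ∀ x v, g.eval x v = F x) :
    ∃ L' k, Good L' s t ∧ Ext L L' ∧ Has L' k F := by
  obtain ⟨h1, h2, h3, h4⟩ := hL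
  have e1 : g.isGate = false := by rcases h with ⟨i, rfl⟩ | ⟨c, rfl⟩ <;> rfl
  have e2 : g.isAny = false := by rcases h with ⟨i, rfl⟩ | ⟨c, rfl⟩ <;> rfl
  have e3 : g.Mono := by rcases h with ⟨i, rfl⟩ | ⟨c, rfl⟩ <;> trivial
  refine ⟨L ++ [g], L.length, ⟨?_, ?_, ?_, ?_⟩, ext_append _ _, has_new _ _ _ ?_⟩
  · simp [List.countP_append, h1, e1]
  · simp [List.countP_append, h2, e2]
  · intro g' hg
    rcases List.mem_append.1 hg with h | h
    · exact h3 g' h
    · rw [List.mem_singleton] at h
      rw [h]; exact e3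
  · intro g' hg
    rcases List.mem_append.1 hg with h | h
    · exact h4 g' h
    · rw [List.mem_singleton] at h
      rw [h, e2]
      intro h
      exact absurd h Bool.false_ne_true
  · intro x
    exact hF x _

/-- weighted sums of the input variables -/
theorem add_sum {L : List (Node n)} {s t : ℕ} (hL : Good L s t) (c : Fin n → ℝ)
    (hc : ∀ i, 0 ≤ c i) (S : Finset (Fin n)) :
    ∃ L' k, Good L' (s + S.card) t ∧ Ext L L' ∧
      Has L' k (fun x => ∑ i ∈ S, c i * (if x i = true then 1 else 0)) := by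
  classical
  induction S using Finset.induction_on with
  | empty =>
    obtain ⟨L', k, h1, h2, h3⟩ := add_leaf hL (Node.const 0) (Or.inr ⟨0, rfl⟩) (fun _ => 0)
      (fun _ _ => rfl)
    exact ⟨L', k, by simpa using h1, h2, by simpa using h3⟩
  | insert i S hi ih =>
    obtain ⟨L1, k1, g1, x1, f1⟩ := ih
    obtain ⟨L2, k2, g2, x2, f2⟩ := add_leaf g1 (Node.input i) (Or.inl ⟨i, rfl⟩)
      (fun x => if x i = true then 1 else 0) (fun _ _ => rfl)
    obtain ⟨L3, k3, g3, x3, f3⟩ := add_gate g2 (x2 _ _ f1) f2 (fun a b => a + c i * b) (by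
      intro s s' t t' h1 h2
      have := mul_le_mul_of_nonneg_left h2 (hc i)
      linarith)
    refine ⟨L3, k3, ?_, (x1.trans x2).trans x3, ?_⟩
    · rw [Finset.card_insert_of_notMem hi]
      exact g3
    · refine ⟨f3.1, fun x => ?_⟩
      rw [f3.2]
      simp only
      rw [Finset.sum_insert hi]
      ring

/-- the weight of an input -/
def wgt (x : Fin n → Bool) : ℕ := (Finset.univ.filter fun i => x i = true).card

theorem wgt_le (x : Fin n → Bool) : wgt x ≤ n := by
  refine (Finset.card_le_univ _).trans ?_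
  rw [Fintype.card_fin]

theorem sum_two {M : ℝ} (x : Fin n → Bool) :
    (∑ i : Fin n, (M + 2 ^ (i : ℕ)) * (if x i = true then (1:ℝ) else 0)) +
      (∑ i : Fin n, (M - 2 ^ (i : ℕ)) * (if x i = true then (1:ℝ) else 0)) = 2 * M * wgt x := by
  rw [← Finset.sum_add_distrib]
  unfold wgt
  rw [Finset.card_filter]
  push_cast
  rw [Finset.mul_sum]
  refine Finset.sum_congr rfl fun i _ => ?_
  split_ifs <;> ring

theorem code_inj {M : ℝ} {x y : Fin n → Bool} (hw : wgt x = wgt y)
    (h : ∑ i : Fin n, (M + 2 ^ (i : ℕ)) * (if x i = true then (1:ℝ) else 0) =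
      ∑ i : Fin n, (M + 2 ^ (i : ℕ)) * (if y i = true then (1:ℝ) else 0)) : x = y := by
  classical
  have e1 : ∀ z : Fin n → Bool, ∑ i : Fin n, (M + 2 ^ (i : ℕ)) * (if z i = true then (1:ℝ) else 0) =
      M * wgt z + ((∑ i ∈ (Finset.univ.filter fun i => z i = true).map Fin.valEmbedding,
        2 ^ i : ℕ) : ℝ) := by
    intro z
    rw [Finset.sum_map]
    unfold wgt
    rw [Finset.card_filter]
    push_cast
    rw [Finset.mul_sum, Finset.sum_filter, ← Finset.sum_add_distrib]
    refine Finset.sum_congr rfl fun i _ => ?_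
    split_ifs <;> simp
  rw [e1, e1, hw] at h
  have h2 : (∑ i ∈ (Finset.univ.filter fun i => x i = true).map Fin.valEmbedding, 2 ^ i : ℕ) =
      ∑ i ∈ (Finset.univ.filter fun i => y i = true).map Fin.valEmbedding, 2 ^ i := by
    have := add_left_cancel h
    exact_mod_cast this
  have h3 := Finset.geomSum_injective (le_refl 2) h2
  have h4 := Finset.map_injective _ h3
  funext i
  have h5 : (i ∈ Finset.univ.filter fun i => x i = true) ↔
      (i ∈ Finset.univ.filter fun i => y i = true) := by rw [h4]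
  simp only [Finset.mem_filter, Finset.mem_univ, true_and] at h5
  exact Bool.eq_iff_iff.2 h5

/-- the function of the middle gate -/
noncomputable def mid (M : ℝ) (f : (Fin n → Bool) → Bool) (w T : ℕ) (s t : ℝ) : ℕ :=
  min ((Finset.univ.filter fun x : Fin n → Bool =>
    ∑ i : Fin n, (M + 2 ^ (i : ℕ)) * (if x i = true then (1:ℝ) else 0) ≤ s ∧
    ∑ i : Fin n, (M - 2 ^ (i : ℕ)) * (if x i = true then (1:ℝ) else 0) ≤ t).sup
      (fun x => 2 * wgt x + (f x).toNat) - 2 * w) (2 ^ (T + 1) - 1)

theorem mid_mono (M : ℝ) (f : (Fin n → Bool) → Bool) (w T : ℕ) (s s' t t' : ℝ) (hs : s ≤ s')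
    (ht : t ≤ t') : mid M f w T s t ≤ mid M f w T s' t' := by
  unfold mid
  refine min_le_min_right _ (Nat.sub_le_sub_right (Finset.sup_mono ?_) _)
  intro x hx
  rw [Finset.mem_filter] at hx ⊢
  exact ⟨hx.1, hx.2.1.trans hs, hx.2.2.trans ht⟩

theorem mid_eq {M : ℝ} (hM : 0 < M) (f : (Fin n → Bool) → Bool) (w T : ℕ) (x : Fin n → Bool) :
    mid M f w T (∑ i : Fin n, (M + 2 ^ (i : ℕ)) * (if x i = true then (1:ℝ) else 0))
      (∑ i : Fin n, (M - 2 ^ (i : ℕ)) * (if x i = true then (1:ℝ) else 0)) =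
      min (2 * wgt x + (f x).toNat - 2 * w) (2 ^ (T + 1) - 1) := by
  unfold mid
  congr 2
  refine le_antisymm (Finset.sup_le fun y hy => ?_) ?_
  · rw [Finset.mem_filter] at hy
    obtain ⟨-, h1, h2⟩ := hy
    have e1 := sum_two (M := M) x
    have e2 := sum_two (M := M) y
    have h3 : (wgt y : ℝ) ≤ wgt x := by
      have : 2 * M * (wgt y : ℝ) ≤ 2 * M * wgt x := by rw [← e1, ← e2]; linarith
      exact le_of_mul_le_mul_left this (by linarith)
    have h3' : wgt y ≤ wgt x := by exact_mod_cast h3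
    rcases Nat.lt_or_eq_of_le h3' with h4 | h4
    · have := Bool.toNat_le (f y)
      omega
    · have h5 : y = x := by
        refine code_inj (M := M) h4 ?_
        rw [h4] at e2
        linarith
      rw [h5]
  · refine Finset.le_sup (f := fun x => 2 * wgt x + (f x).toNat) ?_
    rw [Finset.mem_filter]
    exact ⟨Finset.mem_univ _, le_rfl, le_rfl⟩

/-- the lowest bit of a natural number -/
theorem add_parity (T : ℕ) : ∀ {L : List (Node n)} {s t k : ℕ}, Good L s t →
    ∀ g : (Fin n → Bool) → ℕ, (∀ x, g x < 2 ^ (T + 1)) → Has L k (fun x => (g x : ℝ)) →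
    ∃ L' k', Good L' (s + 2 * T) (t + T) ∧ Ext L L' ∧ Has L' k' (fun x => ((g x % 2 : ℕ) : ℝ)) := by
  induction T with
  | zero =>
    intro L s t k hL g hg hk
    refine ⟨L, k, by simpa using hL, fun _ _ h => h, hk.1, fun x => ?_⟩
    have h2 : g x < 2 := by simpa using hg x
    rw [hk.2]
    simp only
    rw [Nat.mod_eq_of_lt h2]
  | succ T ih =>
    intro L s t k hL g hg hk
    obtain ⟨L1, k1, g1, x1, f1⟩ := add_gate hL hk hk (fun a _ => a - (2 ^ (T + 1) - 1 / 2))
      (by intro s s' t t' h1 h2; linarith)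
    obtain ⟨L2, k2, g2, x2, f2⟩ := add_not g1 f1
    obtain ⟨L3, k3, g3, x3, f3⟩ := add_gate g2 (x2 _ _ (x1 _ _ hk)) f2
      (fun a b => a + 2 ^ (T + 1) * b - 2 ^ (T + 1)) (by
        intro s s' t t' h1 h2
        have : (2:ℝ) ^ (T + 1) * t ≤ 2 ^ (T + 1) * t' :=
          mul_le_mul_of_nonneg_left h2 (by positivity)
        linarith)
    have f4 : Has L3 k3 (fun x => ((g x % 2 ^ (T + 1) : ℕ) : ℝ)) := by
      refine ⟨f3.1, fun x => ?_⟩
      rw [f3.2]
      simp only
      have hx := hg x
      by_cases h : 2 ^ (T + 1) ≤ g x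
      · have h' : (2:ℝ) ^ (T + 1) ≤ g x := by exact_mod_cast h
        rw [if_pos (by linarith)]
        have h2 : g x % 2 ^ (T + 1) = g x - 2 ^ (T + 1) := by
          rw [Nat.mod_eq_sub_mod h, Nat.mod_eq_of_lt]
          rw [pow_succ] at hx
          omega
        rw [h2, Nat.cast_sub h]
        push_cast
        ring
      · push Not at h
        have h' : (g x : ℝ) + 1 ≤ 2 ^ (T + 1) := by exact_mod_cast h
        rw [if_neg (by push Not; linarith), Nat.mod_eq_of_lt h]
        ring
    obtain ⟨L5, k5, g5, x5, f5⟩ := ih g3 (fun x => g x % 2 ^ (T + 1))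
      (fun x => Nat.mod_lt _ (by positivity)) f4
    refine ⟨L5, k5, ?_, ((x1.trans x2).trans x3).trans x5, f5.1, fun x => ?_⟩
    · have e1 : s + 2 * (T + 1) = s + 1 + 1 + 2 * T := by ring
      have e2 : t + (T + 1) = t + 1 + T := by ring
      rw [e1, e2]
      exact g5
    · rw [f5.2]
      simp only
      rw [pow_succ, Nat.mod_mul_left_mod]

/-- **Windows.** The circuit is right in a window of weights, and constant on both sides. -/
theorem window (f : (Fin n → Bool) → Bool) (w T : ℕ) (neg : Bool) :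
    ∃ C : Net n, C.Monotone ∧ C.size = 2 * n + 2 * T + 1 ∧
      C.nodes.countP Node.isAny = T + neg.toNat ∧
      (∀ g ∈ C.nodes, g.isAny = true → ∃ a, g = Node.not a) ∧
      ∀ x, C.Accepts x ↔ xor neg (decide (w + 2 ^ T ≤ wgt x) || (decide (w ≤ wgt x) && f x)) = true := by
  classical
  set M : ℝ := 2 ^ n with hM
  have hM0 : 0 < M := by positivity
  have h0 : Good ([] : List (Node n)) 0 0 := by
    refine ⟨rfl, rfl, ?_, ?_⟩ <;> simp
  obtain ⟨L1, k1, g1, x1, f1⟩ := add_sum h0 (fun i => M + 2 ^ (i : ℕ))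
    (fun i => by positivity) Finset.univ
  obtain ⟨L2, k2, g2, x2, f2⟩ := add_sum g1 (fun i => M - 2 ^ (i : ℕ))
    (fun i => by
      have : (2:ℝ) ^ (i : ℕ) ≤ 2 ^ n := pow_le_pow_right₀ (by norm_num) i.2.le
      rw [hM]; linarith) Finset.univ
  obtain ⟨L3, k3, g3, x3, f3⟩ := add_gate g2 (x2 _ _ f1) f2
    (fun a b => (mid M f w T a b : ℝ)) (by
      intro s s' t t' h1 h2
      exact_mod_cast mid_mono M f w T s s' t t' h1 h2)
  have f4 : Has L3 k3 (fun x =>
      ((min (2 * wgt x + (f x).toNat - 2 * w) (2 ^ (T + 1) - 1) : ℕ) : ℝ)) := by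
    refine ⟨f3.1, fun x => ?_⟩
    rw [f3.2]
    simp only
    rw [mid_eq hM0]
  obtain ⟨L5, k5, g5, x5, f5⟩ := add_parity T g3 _ (fun x => by
    have h1 : 0 < 2 ^ (T + 1) := by positivity
    have := min_le_right (2 * wgt x + (f x).toNat - 2 * w) (2 ^ (T + 1) - 1)
    omega) f4
  have hpar : ∀ x, (min (2 * wgt x + (f x).toNat - 2 * w) (2 ^ (T + 1) - 1) % 2 = 1 ↔
      (decide (w + 2 ^ T ≤ wgt x) || (decide (w ≤ wgt x) && f x)) = true) := by
    intro x
    have hT : 2 ^ (T + 1) = 2 * 2 ^ T := by ring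
    have hT0 : 0 < 2 ^ T := by positivity
    rw [hT]
    cases f x <;> simp only [Bool.toNat_false, Bool.toNat_true, Bool.and_false, Bool.or_false,
      Bool.and_true, Bool.or_eq_true, decide_eq_true_eq] <;> omega
  have hpar0 : ∀ x, (min (2 * wgt x + (f x).toNat - 2 * w) (2 ^ (T + 1) - 1) % 2 = 0 ↔
      ¬ (decide (w + 2 ^ T ≤ wgt x) || (decide (w ≤ wgt x) && f x)) = true) := by
    intro x
    rw [← hpar x]
    omega
  have hcard : 0 + (Finset.univ : Finset (Fin n)).card + (Finset.univ : Finset (Fin n)).card + 1 +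
      2 * T = 2 * n + 2 * T + 1 := by
    rw [Finset.card_univ, Fintype.card_fin]; ring
  cases neg with
  | false =>
    refine ⟨⟨L5, k5⟩, g5.2.2.1, ?_, ?_, g5.2.2.2, fun x => ?_⟩
    · unfold Net.size
      rw [← hcard]
      exact g5.1
    · simpa using g5.2.1
    · unfold Net.Accepts Net.val
      simp only
      rw [f5.2 x, Bool.false_xor, ← hpar x]
      simp only
      rcases Nat.mod_two_eq_zero_or_one
        (min (2 * wgt x + (f x).toNat - 2 * w) (2 ^ (T + 1) - 1)) with h | h <;>
        simp only [h] <;> norm_num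
  | true =>
    obtain ⟨L6, k6, g6, x6, f6⟩ := add_not g5 f5
    refine ⟨⟨L6, k6⟩, g6.2.2.1, ?_, ?_, g6.2.2.2, fun x => ?_⟩
    · unfold Net.size
      rw [← hcard]
      exact g6.1
    · simpa using g6.2.1
    · unfold Net.Accepts Net.val
      simp only
      rw [f6.2 x, Bool.true_xor, Bool.not_eq_true', ← Bool.not_eq_true, ← hpar0 x]
      simp only
      rcases Nat.mod_two_eq_zero_or_one
        (min (2 * wgt x + (f x).toNat - 2 * w) (2 ^ (T + 1) - 1)) with h | h <;>
        simp only [h] <;> norm_num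

end Pool.Agent.V8H38.NA
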