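import Pool.Agent.V8H38.NA.Up

/-!
# Circuits without activity on a small set of variables
-/

set_option linter.unusedSectionVars false

namespace Pool.Agent.V8H38.NA

open Finset

variable {n : ℕ}

/-- the input with the values `a` on the set `E` -/
def ovr (E a : Finset (Fin n)) (x : Fin n → Bool) (i : Fin n) : Bool :=
  if i ∈ E then decide (i ∈ a) else x i

/-- the copy of a node: the variables in `E` have the values `a` -/
def cp (E a : Finset (Fin n)) (s : ℕ) : Node n → Node n
  | Node.input i => if i ∈ E then Node.const (if i ∈ a then 1 else 0) else Node.input i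
  | Node.const c => Node.const c
  | Node.sup c l => Node.sup c (l.map fun k => k + s)
  | Node.gate φ b c => Node.gate φ (b + s) (c + s)
  | Node.any l φ => Node.any (l.map fun k => k + s) φ

theorem cp_isGate (E a : Finset (Fin n)) (s : ℕ) (g : Node n) :
    (cp E a s g).isGate = g.isGate := by
  cases g <;> simp only [cp, Node.isGate]
  split_ifs <;> rfl

theorem cp_mono (E a : Finset (Fin n)) (s : ℕ) (g : Node n) (h : g.Mono) :
    (cp E a s g).Mono := by
  cases g with
  | input i =>
    simp only [cp]
    split_ifs <;> trivial
  | const c => trivial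
  | sup c l => trivial
  | gate φ b c => exact h
  | any l φ => trivial

theorem cp_reads (E a : Finset (Fin n)) (s : ℕ) (g : Node n) :
    (cp E a s g).reads = g.reads.map fun k => k + s := by
  cases g with
  | input i =>
    simp only [cp]
    split_ifs <;> rfl
  | const c => rfl
  | sup c l => rfl
  | gate φ b c => rfl
  | any l φ => rfl

theorem getD_shift (v w : List ℝ) (k : ℕ) : (v ++ w).getD (k + v.length) 0 = w.getD k 0 := by
  rw [List.getD_append_right _ _ _ _ (by omega)]
  congr 1
  omega

theorem vals_cp (E a : Finset (Fin n)) (L K : List (Node n)) (x : Fin n → Bool) :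
    vals x (L ++ K.map (cp E a L.length)) = vals x L ++ vals (ovr E a x) K := by
  induction K using List.reverseRecOn with
  | nil => simp [vals_nil]
  | append_singleton K g ih =>
    rw [List.map_append, ← List.append_assoc, List.map_singleton, vals_append, ih, vals_append,
      List.append_assoc]
    congr 3
    have hs : ∀ k, (vals x L ++ vals (ovr E a x) K).getD (k + L.length) 0 =
        (vals (ovr E a x) K).getD k 0 := by
      intro k
      have := getD_shift (vals x L) (vals (ovr E a x) K) k
      rwa [vals_length] at this
    cases g with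
    | input i =>
      simp only [cp]
      split_ifs with h1 h2
      · simp [Node.eval, ovr, h1, h2]
      · simp [Node.eval, ovr, h1, h2]
      · simp [Node.eval, ovr, h1]
    | const c => rfl
    | sup c l =>
      simp only [cp, Node.eval]
      rw [List.foldr_map]
      simp only [hs]
    | gate φ b c =>
      simp only [cp, Node.eval, hs]
    | any l φ =>
      simp only [cp, Node.eval, List.map_map]
      have : ((fun k => decide (0 < (vals x L ++ vals (ovr E a x) K).getD k 0)) ∘
          fun k => k + L.length) = fun k => decide (0 < (vals (ovr E a x) K).getD k 0) := by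
        funext k
        simp only [Function.comp, hs]
      rw [this]

/-- no arbitrary gate reads a node that depends on the variables in `E` -/
def Quiet (E : Finset (Fin n)) (L : List (Node n)) : Prop :=
  ∀ (i : ℕ) (h : i < L.length), ∀ k ∈ (L[i]).reads, k < i →
    ∀ x y : Fin n → Bool, (∀ a, a ∉ E → x a = y a) → (vals x L).getD k 0 = (vals y L).getD k 0

theorem quiet_append {E : Finset (Fin n)} {L : List (Node n)} (hL : Quiet E L) (g : Node n)
    (hg : g.isAny = false) : Quiet E (L ++ [g]) := by
  intro i hi k hk hki x y hxy
  by_cases h : i < L.length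
  · rw [List.getElem_append_left h] at hk
    rw [vals_getD_append _ _ _ _ (by omega), vals_getD_append _ _ _ _ (by omega)]
    exact hL i h k hk hki x y hxy
  · have hi' : i = L.length := by
      rw [List.length_append, List.length_singleton] at hi
      omega
    subst hi'
    rw [List.getElem_append_right (le_refl _)] at hk
    simp only [Nat.sub_self, List.getElem_cons_zero] at hk
    have := isAny_of_reads hk
    rw [hg] at this
    exact absurd this Bool.false_ne_true

theorem ovr_congr {E : Finset (Fin n)} (a : Finset (Fin n)) {x y : Fin n → Bool}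
    (hxy : ∀ i, i ∉ E → x i = y i) : ovr E a x = ovr E a y := by
  funext i
  unfold ovr
  split_ifs with h
  · rfl
  · exact hxy i h

theorem quiet_cp {E : Finset (Fin n)} {L : List (Node n)} (hL : Quiet E L) (a : Finset (Fin n))
    (K : List (Node n)) : Quiet E (L ++ K.map (cp E a L.length)) := by
  intro i hi k hk hki x y hxy
  by_cases h : i < L.length
  · rw [List.getElem_append_left h] at hk
    rw [vals_getD_append _ _ _ _ (by omega), vals_getD_append _ _ _ _ (by omega)]
    exact hL i h k hk hki x y hxy
  · push Not at h
    rw [List.getElem_append_right h, List.getElem_map, cp_reads, List.mem_map] at hk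
    obtain ⟨k', -, rfl⟩ := hk
    rw [vals_cp, vals_cp]
    have e1 := getD_shift (vals x L) (vals (ovr E a x) K) k'
    have e2 := getD_shift (vals y L) (vals (ovr E a y) K) k'
    rw [vals_length] at e1 e2
    rw [e1, e2, ovr_congr a hxy]

/-- a good list -/
def Fine (E : Finset (Fin n)) (L : List (Node n)) (s : ℕ) : Prop :=
  L.countP Node.isGate ≤ s ∧ (∀ g ∈ L, g.Mono) ∧ Quiet E L

theorem fine_append {E : Finset (Fin n)} {L : List (Node n)} {s : ℕ} (hL : Fine E L s)
    (g : Node n) (hg : g.isAny = false) (hm : g.Mono) (c : ℕ)
    (hc : (if g.isGate = true then 1 else 0) ≤ c) : Fine E (L ++ [g]) (s + c) := by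
  obtain ⟨h1, h2, h3⟩ := hL
  refine ⟨?_, ?_, quiet_append h3 g hg⟩
  · rw [List.countP_append, List.countP_singleton]
    omega
  · intro g' hg'
    rcases List.mem_append.1 hg' with h | h
    · exact h2 g' h
    · rw [List.mem_singleton] at h
      rw [h]
      exact hm

/-- conjunction with variables -/
theorem add_ands {E : Finset (Fin n)} (l : List (Fin n)) : ∀ {L : List (Node n)} {s k : ℕ}
    {F : (Fin n → Bool) → ℝ}, Fine E L s → Has L k F →
    ∃ L' k' F', Fine E L' (s + l.length) ∧ Ext L L' ∧ Has L' k' F' ∧
      ∀ x, (0 < F' x ↔ 0 < F x ∧ ∀ i ∈ l, x i = true) := by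
  induction l with
  | nil =>
    intro L s k F hL hk
    exact ⟨L, k, F, hL, fun _ _ h => h, hk, fun x => by simp⟩
  | cons i l ih =>
    intro L s k F hL hk
    have h1 := fine_append hL (Node.input i) rfl trivial 0 (by simp [Node.isGate])
    have k1 : Has (L ++ [Node.input i]) L.length (fun x => if x i = true then 1 else 0) :=
      has_new L _ _ fun x => rfl
    have x1 : Ext L (L ++ [Node.input i]) := ext_append _ _
    let φ : ℝ → ℝ → ℝ := fun u v => if 0 < u ∧ 0 < v then 1 else 0
    have hφ : ∀ s s' t t' : ℝ, s ≤ s' → t ≤ t' → φ s t ≤ φ s' t' := by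
      intro s s' t t' h2 h3
      simp only [φ]
      by_cases h4 : 0 < s ∧ 0 < t
      · rw [if_pos h4, if_pos ⟨h4.1.trans_le h2, h4.2.trans_le h3⟩]
      · rw [if_neg h4]
        split_ifs <;> norm_num
    have h2 := fine_append h1 (Node.gate φ k L.length) rfl hφ 1 (by simp [Node.isGate])
    have x2 : Ext (L ++ [Node.input i]) (L ++ [Node.input i] ++ [Node.gate φ k L.length]) :=
      ext_append _ _
    have k2 : Has (L ++ [Node.input i] ++ [Node.gate φ k L.length])
        (L ++ [Node.input i]).length (fun x => φ (F x) (if x i = true then 1 else 0)) := by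
      refine has_new _ _ _ fun x => ?_
      simp only [Node.eval]
      rw [(x1 _ _ hk).2 x, k1.2 x]
    obtain ⟨L', k', F', g1, g2, g3, g4⟩ := ih h2 k2
    refine ⟨L', k', F', ?_, (x1.trans x2).trans g2, g3, fun x => ?_⟩
    · have e : s + (i :: l).length = s + 0 + 1 + l.length := by
        rw [List.length_cons]; ring
      rw [e]
      exact g1
    · rw [g4 x]
      have e1 : 0 < φ (F x) (if x i = true then 1 else 0) ↔ 0 < F x ∧ x i = true := by
        simp only [φ]
        by_cases hF : 0 < F x <;> by_cases hx : x i = true <;> simp [hF, hx]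
      rw [e1]
      constructor
      · rintro ⟨⟨h3, h4⟩, h5⟩
        refine ⟨h3, fun j hj => ?_⟩
        rcases List.mem_cons.1 hj with h6 | h6
        · rw [h6]; exact h4
        · exact h5 j h6
      · rintro ⟨h3, h4⟩
        exact ⟨⟨h3, h4 i List.mem_cons_self⟩, fun j hj => h4 j (List.mem_cons_of_mem _ hj)⟩

/-- all copies -/
theorem add_copies (E : Finset (Fin n)) (C : Net n) (hC : C.Monotone)
    (as : List (Finset (Fin n))) (has : ∀ a ∈ as, a ⊆ E) :
    ∃ (L : List (Node n)) (ks : List ℕ), Fine E L (as.length * (C.size + E.card)) ∧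
      ∃ F : List ((Fin n → Bool) → ℝ), List.Forall₂ (fun k f => Has L k f) ks F ∧
      ∀ x, ((∃ f ∈ F, 0 < f x) ↔ ∃ a ∈ as, (∀ i ∈ a, x i = true) ∧ C.Accepts (ovr E a x)) := by
  induction as with
  | nil =>
    refine ⟨[], [], ⟨by simp, by simp, ?_⟩, [], List.Forall₂.nil, fun x => by simp⟩
    intro i hi
    simp at hi
  | cons a as ih =>
    obtain ⟨L, ks, ⟨h1, h2, h3⟩, F, hF, hx⟩ := ih fun b hb => has b (List.mem_cons_of_mem _ hb)
    set L1 := L ++ C.nodes.map (cp E a L.length) with hL1
    have hExt1 : Ext L L1 := by
      rintro k G ⟨g1, g2⟩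
      refine ⟨by rw [hL1, List.length_append]; omega, fun x => ?_⟩
      rw [hL1, vals_getD_append _ _ _ _ g1, g2]
    have hfine1 : Fine E L1 (as.length * (C.size + E.card) + C.size) := by
      refine ⟨?_, ?_, quiet_cp h3 a C.nodes⟩
      · rw [hL1, List.countP_append, List.countP_map]
        have : (Node.isGate ∘ cp E a L.length) = Node.isGate := by
          funext g
          exact cp_isGate E a _ g
        rw [this]
        unfold Net.size
        unfold Net.size at h1
        omega
      · intro g hg
        rcases List.mem_append.1 hg with h | h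
        · exact h2 g h
        · obtain ⟨g', hg', rfl⟩ := List.mem_map.1 h
          exact cp_mono _ _ _ _ (hC g' hg')
    have hfine2 := fine_append hfine1 (Node.sup 0 [C.out + L.length]) rfl trivial 0
      (by simp [Node.isGate])
    have hk2 : Has (L1 ++ [Node.sup 0 [C.out + L.length]]) L1.length
        (fun x => C.val (ovr E a x) C.out ⊔ 0) := by
      refine has_new _ _ _ fun x => ?_
      simp only [Node.eval, List.foldr_cons, List.foldr_nil]
      rw [hL1, vals_cp]
      have e1 := getD_shift (vals x L) (vals (ovr E a x) C.nodes) C.out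
      rw [vals_length] at e1
      rw [e1]
      rfl
    obtain ⟨L', k', F', g1, g2, g3, g4⟩ := add_ands a.toList hfine2 hk2
    have hExt : Ext L L' := (hExt1.trans (ext_append _ _)).trans g2
    refine ⟨L', k' :: ks, ?_, F' :: F, List.Forall₂.cons g3 (hF.imp fun k f h => hExt k f h),
      fun x => ?_⟩
    · obtain ⟨c1, c2, c3⟩ := g1
      refine ⟨c1.trans ?_, c2, c3⟩
      have hcard : a.card ≤ E.card := Finset.card_le_card (has a List.mem_cons_self)
      rw [Finset.length_toList, List.length_cons]
      have : (as.length + 1) * (C.size + E.card) =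
          as.length * (C.size + E.card) + C.size + E.card := by ring
      omega
    · have hF' : 0 < F' x ↔ (∀ i ∈ a, x i = true) ∧ C.Accepts (ovr E a x) := by
        rw [g4 x]
        unfold Net.Accepts
        rw [lt_sup_iff]
        simp only [lt_self_iff_false, or_false, Finset.mem_toList]
        exact and_comm
      constructor
      · rintro ⟨f, hf, h4⟩
        rcases List.mem_cons.1 hf with h5 | h5
        · rw [h5, hF'] at h4
          exact ⟨a, List.mem_cons_self, h4⟩
        · obtain ⟨b, hb, h6⟩ := (hx x).1 ⟨f, h5, h4⟩
          exact ⟨b, List.mem_cons_of_mem _ hb, h6⟩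
      · rintro ⟨b, hb, h4⟩
        rcases List.mem_cons.1 hb with h5 | h5
        · rw [h5] at h4
          exact ⟨F', List.mem_cons_self, hF'.2 h4⟩
        · obtain ⟨f, hf, h6⟩ := (hx x).2 ⟨b, h5, h4⟩
          exact ⟨f, List.mem_cons_of_mem _ hf, h6⟩

/-- **Circuits without activity on a small set of variables.** -/
theorem zero_activity (C : Net n) (hC : C.Monotone) (E : Finset (Fin n))
    (hup : ∀ x y : Fin n → Bool, (∀ a, a ∉ E → x a = y a) → (∀ a, x a = true → y a = true) →
      C.Accepts x → C.Accepts y) :
    ∃ C' : Net n, C'.Monotone ∧ C'.size ≤ 2 ^ E.card * (C.size + E.card) ∧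
      (∀ x, C'.Accepts x ↔ C.Accepts x) ∧ ∀ z π, C'.activity E z π = 0 := by
  classical
  obtain ⟨L, ks, h1, F, hF, hx⟩ := add_copies E C hC E.powerset.toList
    (fun a ha => Finset.mem_powerset.1 (Finset.mem_toList.1 ha))
  rw [Finset.length_toList, Finset.card_powerset] at h1
  have h2 := fine_append h1 (Node.sup 0 ks) rfl trivial 0 (by simp [Node.isGate])
  have hval : ∀ x, (0 < (vals x (L ++ [Node.sup 0 ks])).getD L.length 0 ↔ ∃ f ∈ F, 0 < f x) := by
    intro x
    have hk : Has (L ++ [Node.sup 0 ks]) L.length
        (fun x => ks.foldr (fun k r => (vals x L).getD k 0 ⊔ r) 0) := by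
      refine has_new _ _ _ fun x => rfl
    rw [hk.2 x]
    simp only
    clear h2 h1 hk
    induction hF with
    | nil => simp
    | @cons k f ks F hkf hF ih =>
      rw [List.foldr_cons, lt_sup_iff, hkf.2 x]
      have ih' : (0 < ks.foldr (fun k r => (vals x L).getD k 0 ⊔ r) 0 ↔ ∃ f ∈ F, 0 < f x) := by
        clear ih hx
        induction hF with
        | nil => simp
        | @cons k f ks F hkf hF ih =>
          rw [List.foldr_cons, lt_sup_iff, hkf.2 x, ih]
          simp
      rw [ih']
      simp
  refine ⟨⟨L ++ [Node.sup 0 ks], L.length⟩, h2.2.1, ?_, fun x => ?_, fun z π => ?_⟩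
  · exact h2.1
  · have e1 : (⟨L ++ [Node.sup 0 ks], L.length⟩ : Net n).Accepts x ↔ ∃ f ∈ F, 0 < f x := hval x
    rw [e1, hx x]
    constructor
    · rintro ⟨a, ha, h3, h4⟩
      have haE : a ⊆ E := Finset.mem_powerset.1 (Finset.mem_toList.1 ha)
      refine hup _ _ ?_ ?_ h4
      · intro i hi
        unfold ovr
        rw [if_neg hi]
      · intro i hi
        unfold ovr at hi
        split_ifs at hi with h5
        · exact h3 i (by simpa using hi)
        · exact hi
    · intro h3
      refine ⟨E.filter fun i => x i = true, ?_, ?_, ?_⟩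
      · exact Finset.mem_toList.2 (Finset.mem_powerset.2 (Finset.filter_subset _ _))
      · intro i hi
        exact (Finset.mem_filter.1 hi).2
      · have : ovr E (E.filter fun i => x i = true) x = x := by
          funext i
          unfold ovr
          split_ifs with h5
          · simp [h5]
          · rfl
        rw [this]
        exact h3
  · unfold Net.activity Net.changes
    rw [Finset.card_eq_zero, Finset.filter_eq_empty_iff]
    intro j _ hch
    obtain ⟨i, hi, k, hk, hki, h3⟩ := hch
    apply h3
    have := h2.2.2 i hi k hk hki (switch E z π j) (switch E z π (j + 1)) (by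
      intro a ha
      unfold switch
      rw [if_neg ha, if_neg ha])
    unfold Net.val
    simp only
    rw [this]

end Pool.Agent.V8H38.NA
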